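import Pool.Agent.KO.Xa.Defs

/-!
# Block Xc (Moishezon): the projective model and the statements
-/

set_option autoImplicit false

namespace Pool.Agent.KO

open Set Filter Topology

/-- The homogeneous equation of degree 13, `T = (T₀, u, w, x, y)`. -/
def hS (T : Fin 5 → ℂ) (t : ℂ) : ℂ :=
  T 4 ^ 2 * T 0 ^ 11 + T 3 ^ 3 * T 0 ^ 10 + t * T 2 ^ 11 * T 0 ^ 2 + T 1 * T 2 ^ 10 * T 0 ^ 2
    + T 1 ^ 12 * T 2 - T 0 ^ 13 - T 2 ^ 9 * T 0 ^ 4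

/-- The projective model. -/
def mS : Set (PN 4 × ℂ) := {P | ‖P.2‖ < 1 ∧ hS P.1.rep P.2 = 0}

/-- The exceptional set of the projective model: `T₀ = 0` and the curve `Γ`. -/
def mA : Set (PN 4 × ℂ) := {P | ‖P.2‖ < 1 ∧ (P.1.rep 0 = 0 ∨ (P.2 = 0 ∧ P.1.rep 1 = 0 ∧
  P.1.rep 3 * P.1.rep 0 ^ 2 = P.1.rep 2 ^ 3 ∧ P.1.rep 4 = P.1.rep 0))}

/-- Homogeneity, and the affine part. -/
structure HomFacts : Prop where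
  hom : ∀ (c : ℂ) (T : Fin 5 → ℂ) (t : ℂ), hS (c • T) t = c ^ 13 * hS T t
  memS : ∀ (T : Fin 5 → ℂ) (hT : T ≠ 0) (t : ℂ),
    (Projectivization.mk ℂ T hT, t) ∈ mS ↔ ‖t‖ < 1 ∧ hS T t = 0
  memA : ∀ (T : Fin 5 → ℂ) (hT : T ≠ 0) (t : ℂ), (Projectivization.mk ℂ T hT, t) ∈ mA ↔
    ‖t‖ < 1 ∧ (T 0 = 0 ∨ (t = 0 ∧ T 1 = 0 ∧ T 3 * T 0 ^ 2 = T 2 ^ 3 ∧ T 4 = T 0))
  aff : ∀ p : Fin 6 → ℂ, p 0 = 1 → hS ![1, p 1, p 2, p 3, p 4] (p 5) = G p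

/-- Topology and functions of `ℙ^N × ℂ`. -/
structure PFacts (N : ℕ) : Prop where
  cont : Continuous (fun q : {v : Fin (N + 1) → ℂ // v ≠ 0} × ℂ =>
    ((Projectivization.mk ℂ q.1.1 q.1.2, q.2) : PN N × ℂ))
  openMap : IsOpenMap (fun q : {v : Fin (N + 1) → ℂ // v ≠ 0} × ℂ =>
    ((Projectivization.mk ℂ q.1.1 q.1.2, q.2) : PN N × ℂ))
  hol : ∀ (H : (Fin (N + 1) → ℂ) × ℂ → ℂ),
    (∀ (c : ℂ) (v : Fin (N + 1) → ℂ) (t : ℂ), c ≠ 0 → H (c • v, t) = H (v, t)) →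
    ∀ P : PN N × ℂ, AnalyticAt ℂ H (P.1.rep, P.2) →
      stdP N (fun Q : PN N × ℂ => H (Q.1.rep, Q.2)) P
  opn : ∀ (i : Fin (N + 1)), IsOpen {P : PN N × ℂ | P.1.rep i ≠ 0}
  test : ∀ (f : PN N × ℂ → ℂ) (v : Fin (N + 1) → ℂ) (hv : v ≠ 0) (t : ℂ),
    stdP N f (Projectivization.mk ℂ v hv, t) ↔ ∃ H : (Fin (N + 1) → ℂ) × ℂ → ℂ,
      AnalyticAt ℂ H (v, t) ∧ ∀ᶠ q in 𝓝 (v, t), ∀ h : q.1 ≠ 0,
        f (Projectivization.mk ℂ q.1 h, q.2) = H q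

/-- The affine part of the cone, without the curve `Γ`. -/
abbrev Aff : Type := {p : Fin 6 → ℂ // (p ∈ Cone ∧ p ∉ Gam) ∧ p 0 = 1}

/-- The vector `(1, u, w, x, y)`. -/
def vec (p : Fin 6 → ℂ) : Fin 5 → ℂ := ![1, p 1, p 2, p 3, p 4]

theorem vec_ne (p : Fin 6 → ℂ) : vec p ≠ 0 := by
  intro h
  have := congrFun h 0
  simp [vec] at this

/-- The point `([1 : u : w : x : y], t)`. -/
noncomputable def toP (p : Fin 6 → ℂ) : PN 4 × ℂ :=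
  (Projectivization.mk ℂ (vec p) (vec_ne p), p 5)

namespace Flip

variable (F : Flip)

/-- The point of `X` given by a point of the affine part. -/
def toX (p : Aff) : F.Sp := F.pi1 ⟨p.1, p.2.1⟩

/-- The homeomorphisms from the affine part to `X ∖ {z = 0}` and to the open part of the model. -/
structure EFacts where
  e1 : Aff ≃ₜ ↥({x | ‖F.g x‖ < 1} \ F.Z)
  e2 : Aff ≃ₜ ↥(mS \ mA)
  v1 : ∀ p, (e1 p).1 = F.toX p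
  v2 : ∀ p, (e2 p).1 = toP p.1
  h1 : ∀ (f : ↥({x | ‖F.g x‖ < 1} \ F.Z) → ℂ) (p : Aff),
    res F.O ({x | ‖F.g x‖ < 1} \ F.Z) f (e1 p) ↔ ∃ H : (Fin 6 → ℂ) → ℂ, AnalyticAt ℂ H p.1 ∧
      ∀ᶠ p' in 𝓝 p, f (e1 p') = H p'.1
  h2 : ∀ (f : ↥(mS \ mA) → ℂ) (p : Aff),
    res (stdP 4) (mS \ mA) f (e2 p) ↔ ∃ H : (Fin 6 → ℂ) → ℂ, AnalyticAt ℂ H p.1 ∧
      ∀ᶠ p' in 𝓝 p, f (e2 p') = H p'.1

/-- The meromorphic map is given locally by holomorphic functions. -/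
def MeroFact : Prop :=
  ∀ x : F.Sp, ∃ (V : Set F.Sp) (f : Fin 5 → F.Sp → ℂ), IsOpen V ∧ x ∈ V ∧
    (∀ i, ∀ y ∈ V, F.O (f i) y) ∧ V ⊆ closure {y | y ∈ V ∧ (f · y) ≠ 0} ∧
    ∀ p : Aff, F.toX p ∈ V → ∀ h : (f · (F.toX p)) ≠ 0,
      (toP p.1).1 = Projectivization.mk ℂ (f · (F.toX p)) h

/-- The parts of block Xc. -/
structure XcParts where
  anS : IsAn (stdP 4) (overDisc 4 1) mS
  anA' : IsAn (stdP 4) (overDisc 4 1) mA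
  anA : IsAn F.O {x | ‖F.g x‖ < 1} F.Z
  denseA' : mS ⊆ closure (mS \ mA)
  e : F.EFacts
  mero : F.MeroFact

end Flip

end Pool.Agent.KO
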