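import Pool.Agent.KO.Xc.Defs

/-!
# Topology and functions of `ℙ^N × ℂ`
-/

set_option autoImplicit false

namespace Pool.Agent.KO

open Set Filter Topology

namespace PF

/-- The projection of the cone. -/
noncomputable def pr (N : ℕ) (v : {v : Fin (N + 1) → ℂ // v ≠ 0}) : PN N := Projectivization.mk ℂ v.1 v.2

theorem quot (N : ℕ) : IsQuotientMap (pr N) := isQuotientMap_quotient_mk'

theorem smul_ne {N : ℕ} (c : ℂˣ) {v : Fin (N + 1) → ℂ} (h : v ≠ 0) : c • v ≠ 0 := by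
  intro h'
  apply h
  have := congrArg (fun w => c⁻¹ • w) h'
  simpa using this

theorem mk_smul {N : ℕ} (c : ℂˣ) {v : Fin (N + 1) → ℂ} (h : v ≠ 0) :
    Projectivization.mk ℂ (c • v) (smul_ne c h) = Projectivization.mk ℂ v h :=
  (Projectivization.mk_eq_mk_iff ℂ _ _ _ _).2 ⟨c, rfl⟩

theorem opn (N : ℕ) : IsOpenMap (pr N) := by
  intro U hU
  rw [← (quot N).isOpen_preimage]
  have e : pr N ⁻¹' (pr N '' U) = ⋃ c : ℂˣ, {v | (⟨c • v.1, smul_ne c v.2⟩ :
      {v : Fin (N + 1) → ℂ // v ≠ 0}) ∈ U} := by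
    ext v
    simp only [mem_preimage, mem_image, mem_iUnion, mem_ofPred_eq]
    constructor
    · rintro ⟨u, hu, huv⟩
      obtain ⟨c, hc⟩ := (Projectivization.mk_eq_mk_iff ℂ _ _ _ _).1 huv
      refine ⟨c, ?_⟩
      have : (⟨c • v.1, smul_ne c v.2⟩ : {v : Fin (N + 1) → ℂ // v ≠ 0}) = u :=
        Subtype.ext hc
      rw [this]
      exact hu
    · rintro ⟨c, hc⟩
      exact ⟨_, hc, mk_smul c v.2⟩
  rw [e]
  refine isOpen_iUnion fun c => ?_
  refine hU.preimage (Continuous.subtype_mk ?_ _)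
  exact continuous_subtype_val.const_smul c

theorem trans {N : ℕ} (f : PN N × ℂ → ℂ) (a : ℂˣ) (v : Fin (N + 1) → ℂ) (t : ℂ)
    (h : ∃ H : (Fin (N + 1) → ℂ) × ℂ → ℂ, AnalyticAt ℂ H (a • v, t) ∧
      ∀ᶠ q in 𝓝 (a • v, t), ∀ h : q.1 ≠ 0, f (Projectivization.mk ℂ q.1 h, q.2) = H q) :
    ∃ H : (Fin (N + 1) → ℂ) × ℂ → ℂ, AnalyticAt ℂ H (v, t) ∧
      ∀ᶠ q in 𝓝 (v, t), ∀ h : q.1 ≠ 0, f (Projectivization.mk ℂ q.1 h, q.2) = H q := by
  obtain ⟨H, hH, hf⟩ := h
  have h1 : AnalyticAt ℂ (fun q : (Fin (N + 1) → ℂ) × ℂ => (a : ℂ) • q.1) (v, t) :=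
    AnalyticAt.fun_smul analyticAt_const analyticAt_fst
  have hA : AnalyticAt ℂ (fun q : (Fin (N + 1) → ℂ) × ℂ => ((a : ℂ) • q.1, q.2)) (v, t) :=
    h1.prod analyticAt_snd
  refine ⟨fun q => H ((a : ℂ) • q.1, q.2), ?_, ?_⟩
  · exact AnalyticAt.fun_comp (g := H) hH hA
  · have hc : Tendsto (fun q : (Fin (N + 1) → ℂ) × ℂ => ((a : ℂ) • q.1, q.2)) (𝓝 (v, t))
        (𝓝 (a • v, t)) := hA.continuousAt
    filter_upwards [hc.eventually hf] with q hq h
    rw [← hq (smul_ne a h)]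
    congr 2
    exact (mk_smul a h).symm

end PF

open PF

/-- Topology and functions of `ℙ^N × ℂ`. -/
theorem pFacts (N : ℕ) : PFacts N := by
  have ho : IsOpenMap (fun q : {v : Fin (N + 1) → ℂ // v ≠ 0} × ℂ =>
      ((Projectivization.mk ℂ q.1.1 q.1.2, q.2) : PN N × ℂ)) :=
    (PF.opn N).prodMap IsOpenMap.id
  refine ⟨?_, ho, ?_, ?_, ?_⟩
  · exact ((quot N).continuous.comp continuous_fst).prodMk continuous_snd
  · intro H hH P hP
    refine ⟨H, hP, Eventually.of_forall fun q h => ?_⟩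
    obtain ⟨a, ha⟩ := Projectivization.exists_smul_eq_mk_rep ℂ q.1 h
    show H ((Projectivization.mk ℂ q.1 h).rep, q.2) = H q
    rw [← ha]
    exact hH a q.1 q.2 a.ne_zero
  · intro i
    have e : {P : PN N × ℂ | P.1.rep i ≠ 0} =
        (fun q : {v : Fin (N + 1) → ℂ // v ≠ 0} × ℂ =>
          ((Projectivization.mk ℂ q.1.1 q.1.2, q.2) : PN N × ℂ)) '' {q | q.1.1 i ≠ 0} := by
      ext P
      simp only [mem_ofPred_eq, mem_image]
      constructor
      · intro h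
        refine ⟨(⟨P.1.rep, P.1.rep_nonzero⟩, P.2), h, ?_⟩
        ext1
        · exact P.1.mk_rep
        · rfl
      · rintro ⟨q, hq, rfl⟩
        obtain ⟨a, ha⟩ := Projectivization.exists_smul_eq_mk_rep ℂ q.1.1 q.1.2
        show (Projectivization.mk ℂ q.1.1 q.1.2).rep i ≠ 0
        rw [← ha]
        show (a : ℂ) • q.1.1 i ≠ 0
        rw [smul_eq_mul]
        exact mul_ne_zero a.ne_zero hq
    rw [e]
    refine ho _ (IsOpen.preimage (f := fun q : {v : Fin (N + 1) → ℂ // v ≠ 0} × ℂ => q.1.1 i)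
      ?_ isOpen_ne)
    exact (continuous_apply i).comp (continuous_subtype_val.comp continuous_fst)
  · intro f v hv t
    obtain ⟨a, ha⟩ := Projectivization.exists_smul_eq_mk_rep ℂ v hv
    constructor
    · intro h
      refine trans f a v t ?_
      rw [ha]
      exact h
    · intro h
      show ∃ F : (Fin (N + 1) → ℂ) × ℂ → ℂ,
        AnalyticAt ℂ F ((Projectivization.mk ℂ v hv).rep, t) ∧
        ∀ᶠ q in 𝓝 ((Projectivization.mk ℂ v hv).rep, t), ∀ h : q.1 ≠ 0,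
          f (Projectivization.mk ℂ q.1 h, q.2) = F q
      refine trans f a⁻¹ _ t ?_
      rw [← ha, inv_smul_smul]
      exact h

end Pool.Agent.KO
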