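import Pool.Agent.KO.Xc.Defs

/-!
# The projective model and its exceptional set are analytic (block Xc)
-/

set_option autoImplicit false

namespace Pool.Agent.KO

open Set Filter Topology

theorem an_of_homog (hp : PFacts 4) (A : Set (PN 4 × ℂ)) (hsub : A ⊆ overDisc 4 1) (k : ℕ)
    (H : Fin 5 → Fin k → (Fin 5 → ℂ) × ℂ → ℂ)
    (hom : ∀ i j, ∀ (c : ℂ) (v : Fin 5 → ℂ) (t : ℂ), c ≠ 0 → H i j (c • v, t) = H i j (v, t))
    (an : ∀ i j, ∀ (v : Fin 5 → ℂ) (t : ℂ), v i ≠ 0 → AnalyticAt ℂ (H i j) (v, t))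
    (hA : ∀ i, ∀ P : PN 4 × ℂ, P.1.rep i ≠ 0 → ‖P.2‖ < 1 →
      (P ∈ A ↔ ∀ j, H i j (P.1.rep, P.2) = 0)) : IsAn (stdP 4) (overDisc 4 1) A := by
  refine ⟨hsub, fun P hP => ?_⟩
  obtain ⟨i, hi⟩ : ∃ i, P.1.rep i ≠ 0 := by
    by_contra h
    push Not at h
    exact P.1.rep_nonzero (funext h)
  refine ⟨{Q : PN 4 × ℂ | Q.1.rep i ≠ 0} ∩ {Q | ‖Q.2‖ < 1}, ?_, ⟨hi, hP⟩, k,
    fun j Q => H i j (Q.1.rep, Q.2), ?_, ?_⟩
  · exact (hp.opn i).inter (isOpen_lt (continuous_norm.comp continuous_snd) continuous_const)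
  · rintro j Q ⟨hQ, -⟩
    exact hp.hol (H i j) (hom i j) Q (an i j _ _ hQ)
  · ext Q
    constructor
    · rintro ⟨h1, h2, h3⟩
      exact ⟨⟨h2, h3⟩, (hA i Q h2 h3).1 h1⟩
    · rintro ⟨⟨h2, h3⟩, h1⟩
      exact ⟨(hA i Q h2 h3).2 h1, h2, h3⟩

theorem an_coord_xc (i : Fin 5) (x : (Fin 5 → ℂ) × ℂ) :
    AnalyticAt ℂ (fun x : (Fin 5 → ℂ) × ℂ => x.1 i) x :=
  ((ContinuousLinearMap.proj (R := ℂ) (φ := fun _ : Fin 5 => ℂ) i).comp
    (ContinuousLinearMap.fst ℂ (Fin 5 → ℂ) ℂ)).analyticAt x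

theorem an_mS (hh : HomFacts) (hp : PFacts 4) : IsAn (stdP 4) (overDisc 4 1) mS := by
  refine an_of_homog hp mS (fun P h => h.1) 1 (fun i _ x => hS x.1 x.2 / x.1 i ^ 13) ?_ ?_ ?_
  · intro i j c v t hc
    simp only [hh.hom, Pi.smul_apply, smul_eq_mul, mul_pow]
    exact mul_div_mul_left _ _ (pow_ne_zero _ hc)
  · intro i j v t hv
    refine AnalyticAt.div ?_ ((an_coord_xc i _).pow 13) (pow_ne_zero _ hv)
    unfold hS
    have h0 := an_coord_xc 0 (v, t)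
    have h1 := an_coord_xc 1 (v, t)
    have h2 := an_coord_xc 2 (v, t)
    have h3 := an_coord_xc 3 (v, t)
    have h4 := an_coord_xc 4 (v, t)
    have ht : AnalyticAt ℂ (fun x : (Fin 5 → ℂ) × ℂ => x.2) (v, t) := analyticAt_snd
    fun_prop
  · intro i P hP h1
    constructor
    · intro h j
      show hS P.1.rep P.2 / P.1.rep i ^ 13 = 0
      rw [h.2, zero_div]
    · intro h
      refine ⟨h1, ?_⟩
      have := h 0
      exact (div_eq_zero_iff.1 this).resolve_right (pow_ne_zero _ hP)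

/-- The four equations of `mA`. -/
noncomputable def mEq (i : Fin 5) : Fin 4 → (Fin 5 → ℂ) × ℂ → ℂ :=
  ![fun x => x.1 0 * x.2 / x.1 i, fun x => x.1 0 * x.1 1 / x.1 i ^ 2,
    fun x => x.1 0 * (x.1 3 * x.1 0 ^ 2 - x.1 2 ^ 3) / x.1 i ^ 4,
    fun x => x.1 0 * (x.1 4 - x.1 0) / x.1 i ^ 2]

theorem an_mA (_hh : HomFacts) (hp : PFacts 4) : IsAn (stdP 4) (overDisc 4 1) mA := by
  refine an_of_homog hp mA (fun P h => h.1) 4 mEq ?_ ?_ ?_
  · intro i j c v t hc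
    fin_cases j
    · show (c • v) 0 * t / (c • v) i = v 0 * t / v i
      simp only [Pi.smul_apply, smul_eq_mul]
      rw [mul_assoc]
      exact mul_div_mul_left _ _ hc
    · show (c • v) 0 * (c • v) 1 / (c • v) i ^ 2 = v 0 * v 1 / v i ^ 2
      simp only [Pi.smul_apply, smul_eq_mul, mul_pow]
      rw [show c * v 0 * (c * v 1) = c ^ 2 * (v 0 * v 1) by ring]
      exact mul_div_mul_left _ _ (pow_ne_zero _ hc)
    · show (c • v) 0 * ((c • v) 3 * (c • v) 0 ^ 2 - (c • v) 2 ^ 3) / (c • v) i ^ 4 =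
        v 0 * (v 3 * v 0 ^ 2 - v 2 ^ 3) / v i ^ 4
      simp only [Pi.smul_apply, smul_eq_mul, mul_pow]
      rw [show c * v 0 * (c * v 3 * (c ^ 2 * v 0 ^ 2) - c ^ 3 * v 2 ^ 3) =
        c ^ 4 * (v 0 * (v 3 * v 0 ^ 2 - v 2 ^ 3)) by ring]
      exact mul_div_mul_left _ _ (pow_ne_zero _ hc)
    · show (c • v) 0 * ((c • v) 4 - (c • v) 0) / (c • v) i ^ 2 = v 0 * (v 4 - v 0) / v i ^ 2
      simp only [Pi.smul_apply, smul_eq_mul, mul_pow]
      rw [show c * v 0 * (c * v 4 - c * v 0) = c ^ 2 * (v 0 * (v 4 - v 0)) by ring]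
      exact mul_div_mul_left _ _ (pow_ne_zero _ hc)
  · intro i j v t hv
    have h0 := an_coord_xc 0 (v, t)
    have h1 := an_coord_xc 1 (v, t)
    have h2 := an_coord_xc 2 (v, t)
    have h3 := an_coord_xc 3 (v, t)
    have h4 := an_coord_xc 4 (v, t)
    have ht : AnalyticAt ℂ (fun x : (Fin 5 → ℂ) × ℂ => x.2) (v, t) := analyticAt_snd
    fin_cases j
    · exact AnalyticAt.div (by fun_prop) (an_coord_xc i _) hv
    · exact AnalyticAt.div (by fun_prop) ((an_coord_xc i _).pow 2) (pow_ne_zero _ hv)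
    · exact AnalyticAt.div (by fun_prop) ((an_coord_xc i _).pow 4) (pow_ne_zero _ hv)
    · exact AnalyticAt.div (by fun_prop) ((an_coord_xc i _).pow 2) (pow_ne_zero _ hv)
  · intro i P hP hP1
    constructor
    · rintro ⟨-, h | ⟨ht, h1, h3, h4⟩⟩ j
      · fin_cases j
        · show P.1.rep 0 * P.2 / P.1.rep i = 0
          rw [h, zero_mul, zero_div]
        · show P.1.rep 0 * P.1.rep 1 / P.1.rep i ^ 2 = 0
          rw [h, zero_mul, zero_div]
        · show P.1.rep 0 * (P.1.rep 3 * P.1.rep 0 ^ 2 - P.1.rep 2 ^ 3) / P.1.rep i ^ 4 = 0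
          rw [h, zero_mul, zero_div]
        · show P.1.rep 0 * (P.1.rep 4 - P.1.rep 0) / P.1.rep i ^ 2 = 0
          rw [h, zero_mul, zero_div]
      · fin_cases j
        · show P.1.rep 0 * P.2 / P.1.rep i = 0
          rw [ht, mul_zero, zero_div]
        · show P.1.rep 0 * P.1.rep 1 / P.1.rep i ^ 2 = 0
          rw [h1, mul_zero, zero_div]
        · show P.1.rep 0 * (P.1.rep 3 * P.1.rep 0 ^ 2 - P.1.rep 2 ^ 3) / P.1.rep i ^ 4 = 0
          rw [h3, sub_self, mul_zero, zero_div]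
        · show P.1.rep 0 * (P.1.rep 4 - P.1.rep 0) / P.1.rep i ^ 2 = 0
          rw [h4, sub_self, mul_zero, zero_div]
    · intro h
      refine ⟨hP1, ?_⟩
      by_cases h0 : P.1.rep 0 = 0
      · exact Or.inl h0
      right
      have e0 : P.1.rep 0 * P.2 / P.1.rep i = 0 := h 0
      have e1 : P.1.rep 0 * P.1.rep 1 / P.1.rep i ^ 2 = 0 := h 1
      have e2 : P.1.rep 0 * (P.1.rep 3 * P.1.rep 0 ^ 2 - P.1.rep 2 ^ 3) / P.1.rep i ^ 4 = 0 := h 2
      have e3 : P.1.rep 0 * (P.1.rep 4 - P.1.rep 0) / P.1.rep i ^ 2 = 0 := h 3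
      have f0 := (mul_eq_zero.1 ((div_eq_zero_iff.1 e0).resolve_right hP)).resolve_left h0
      have f1 := (mul_eq_zero.1 ((div_eq_zero_iff.1 e1).resolve_right
        (pow_ne_zero _ hP))).resolve_left h0
      have f2 := (mul_eq_zero.1 ((div_eq_zero_iff.1 e2).resolve_right
        (pow_ne_zero _ hP))).resolve_left h0
      have f3 := (mul_eq_zero.1 ((div_eq_zero_iff.1 e3).resolve_right
        (pow_ne_zero _ hP))).resolve_left h0
      exact ⟨f0, f1, sub_eq_zero.1 f2, sub_eq_zero.1 f3⟩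

end Pool.Agent.KO
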