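import Pool.Agent.KO.Xc.Defs

/-!
# The set `z = 0` is analytic
-/

set_option autoImplicit false

namespace Pool.Agent.KO

open Set Filter Topology

/-- The invariant function `z³³⁰ / pᵢ^(330 / wᵢ)`. -/
noncomputable def anz1 (i : Fin 6) (p : Fin 6 → ℂ) : ℂ := p 0 ^ 330 / p i ^ (330 / wgt i)

/-- The invariant function `z³³⁰ Aⱼ^(330 / (j + 1))`. -/
def anz2 (j : Fin 5) (q : Fin 5 → ℂ) : ℂ := q 3 ^ 330 * q j ^ (330 / (j.1 + 1))

theorem anz1_inv {i : Fin 6} (hi : i ≠ 5) (l : ℂ) (hl : l ≠ 0) (p : Fin 6 → ℂ) :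
    anz1 i (act l p) = anz1 i p := by
  have h0 : act l p 0 = l * p 0 := act_zero' l p
  have hi' : act l p i = l ^ wgt i * p i := rfl
  have hw : wgt i * (330 / wgt i) = 330 := by
    fin_cases i
    · rfl
    · rfl
    · rfl
    · rfl
    · rfl
    · exact absurd rfl hi
  unfold anz1
  rw [h0, hi', mul_pow, mul_pow, ← pow_mul, hw,
    mul_div_mul_left _ _ (pow_ne_zero 330 hl)]

theorem anz2_inv {j : Fin 5} (hj : j.1 < 3) (l : ℂ) (hl : l ≠ 0) (q : Fin 5 → ℂ) :
    anz2 j (act' l q) = anz2 j q := by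
  have h3 : act' l q 3 = l * q 3 := act'_three' l q
  have hj' : act' l q j = (l ^ (j.1 + 1))⁻¹ * q j := by
    fin_cases j
    · show act' l q 0 = (l ^ 1)⁻¹ * q 0
      rw [act'_zero', pow_one]
    · exact act'_one' l q
    · exact act'_two' l q
    · exact absurd hj (by decide)
    · exact absurd hj (by decide)
  have hw : (j.1 + 1) * (330 / (j.1 + 1)) = 330 := by
    fin_cases j
    · rfl
    · rfl
    · rfl
    · exact absurd hj (by decide)
    · exact absurd hj (by decide)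
  unfold anz2
  rw [h3, hj', mul_pow, mul_pow, inv_pow, ← pow_mul, hw]
  have := pow_ne_zero 330 hl
  field_simp

theorem anz1_an {i : Fin 6} {p : Fin 6 → ℂ} (hp : p i ≠ 0) : AnalyticAt ℂ (anz1 i) p := by
  have h : ∀ k : Fin 6, AnalyticAt ℂ (fun p : Fin 6 → ℂ => p k) p := fun k =>
    (ContinuousLinearMap.proj (R := ℂ) (φ := fun _ : Fin 6 => ℂ) k).analyticAt p
  exact ((h 0).pow 330).div ((h i).pow _) (pow_ne_zero _ hp)

theorem anz2_an (j : Fin 5) (q : Fin 5 → ℂ) : AnalyticAt ℂ (anz2 j) q := by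
  have h : ∀ k : Fin 5, AnalyticAt ℂ (fun q : Fin 5 → ℂ => q k) q := fun k =>
    (ContinuousLinearMap.proj (R := ℂ) (φ := fun _ : Fin 5 => ℂ) k).analyticAt q
  exact ((h 3).pow 330).mul ((h j).pow _)

theorem Flip.an_Z (F : Flip) (hx : F.XaFacts) : IsAn F.O {x | ‖F.g x‖ < 1} F.Z := by
  refine ⟨fun x _ => hx.disc x, fun x _ => ?_⟩
  have hd := hx.desc
  rcases hd.cover x with ⟨i, hi, hxi⟩ | ⟨⟨j, hj, hxj⟩, -⟩
  · refine ⟨F.V1 i, hd.open1 i, hxi, 1, fun _ => F.desc1 (anz1 i), ?_, ?_⟩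
    · rintro - y ⟨p, rfl, hp⟩
      exact hd.h1 _ (fun l hl p => anz1_inv hi l hl p) p (anz1_an hp)
    · ext y
      constructor
      · rintro ⟨hz, ⟨p, rfl, hp⟩⟩
        refine ⟨⟨p, rfl, hp⟩, fun _ => ?_⟩
        show F.desc1 (anz1 i) (F.pi1 p) = 0
        rw [hd.v1 _ (fun l hl p => anz1_inv hi l hl p) p]
        have h0 := (hd.z1 p).1 hz
        unfold anz1
        rw [h0]
        simp
      · rintro ⟨⟨p, rfl, hp⟩, h⟩
        refine ⟨(hd.z1 p).2 ?_, ⟨p, rfl, hp⟩⟩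
        have h1 := h 0
        simp only at h1
        rw [hd.v1 _ (fun l hl p => anz1_inv hi l hl p) p] at h1
        unfold anz1 at h1
        rcases div_eq_zero_iff.1 h1 with h2 | h2
        · exact pow_eq_zero_iff (by norm_num) |>.1 h2
        · exact absurd h2 (pow_ne_zero _ hp)
  · refine ⟨F.V2 j, hd.open2 j, hxj, 1, fun _ => F.desc2 (anz2 j), ?_, ?_⟩
    · rintro - y ⟨q, rfl, hq⟩
      exact hd.h2 _ (fun l hl q _ => anz2_inv hj l hl q) q (anz2_an j q.1)
    · ext y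
      constructor
      · rintro ⟨hz, ⟨q, rfl, hq⟩⟩
        refine ⟨⟨q, rfl, hq⟩, fun _ => ?_⟩
        show F.desc2 (anz2 j) (F.pi2 q) = 0
        rw [hd.v2 _ (fun l hl q _ => anz2_inv hj l hl q) q]
        have h0 := (hd.z2 q).1 hz
        unfold anz2
        rw [h0]
        simp
      · rintro ⟨⟨q, rfl, hq⟩, h⟩
        refine ⟨(hd.z2 q).2 ?_, ⟨q, rfl, hq⟩⟩
        have h1 := h 0
        simp only at h1
        rw [hd.v2 _ (fun l hl q _ => anz2_inv hj l hl q) q] at h1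
        unfold anz2 at h1
        rcases mul_eq_zero.1 h1 with h2 | h2
        · exact pow_eq_zero_iff (by norm_num) |>.1 h2
        · exact absurd h2 (pow_ne_zero _ hq)

end Pool.Agent.KO
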