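import Pool.Agent.KO.Xc.Defs

/-!
# Block Xc: assembly of the bimeromorphic map
-/

set_option autoImplicit false

namespace Pool.Agent.KO

open Set Filter Topology

theorem Flip.disc_univ (F : Flip) (hx : F.XaFacts) : {x | ‖F.g x‖ < 1} = univ :=
  eq_univ_of_forall hx.disc

/-- The isomorphism between `X ∖ {z = 0}` and the open part of the projective model. -/
noncomputable def Flip.EFacts.iso {F : Flip} (e : F.EFacts) :
    CIso (res F.O ({x | ‖F.g x‖ < 1} \ F.Z)) (res (stdP 4) (mS \ mA)) where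
  toHomeomorph := e.e1.symm.trans e.e2
  hol := by
    intro f x
    obtain ⟨p, rfl⟩ := e.e1.surjective x
    have h1 : (e.e1.symm.trans e.e2).toFun (e.e1 p) = e.e2 p := by
      show e.e2 (e.e1.symm (e.e1 p)) = e.e2 p
      rw [Homeomorph.symm_apply_apply]
    show res (stdP 4) (mS \ mA) f ((e.e1.symm.trans e.e2).toFun (e.e1 p)) ↔ _
    rw [h1, e.h2 f p, e.h1 _ p]
    have h2 : ∀ p' : Aff, (f ∘ (e.e1.symm.trans e.e2).toFun) (e.e1 p') = f (e.e2 p') := by
      intro p'
      show f (e.e2 (e.e1.symm (e.e1 p'))) = f (e.e2 p')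
      rw [Homeomorph.symm_apply_apply]
    constructor
    · rintro ⟨H, hH, h⟩
      refine ⟨H, hH, h.mono fun p' hp' => ?_⟩
      exact (h2 p').trans hp'
    · rintro ⟨H, hH, h⟩
      refine ⟨H, hH, h.mono fun p' hp' => ?_⟩
      exact (h2 p').symm.trans hp'

theorem Flip.EFacts.iso_apply {F : Flip} (e : F.EFacts) (p : Aff) :
    (e.iso.toFun (e.e1 p)).1 = toP p.1 := by
  show (e.e2 (e.e1.symm (e.e1 p))).1 = _
  rw [Homeomorph.symm_apply_apply, e.v2]

theorem Flip.g_toX (F : Flip) (p : Aff) : F.g (F.toX p) = p.1 5 := rfl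

/-- The bimeromorphic map. -/
noncomputable def Flip.bimer (F : Flip) (hx : F.XaFacts) (c : F.XcParts) :
    Bimer F.O F.g 1 mS where
  A := F.Z
  A' := mA
  anA := c.anA
  anA' := c.anA'
  denseA := by
    rw [F.disc_univ hx, ← compl_eq_univ_sdiff]
    exact fun x _ => hx.dens.dz x
  denseA' := c.denseA'
  e := c.e.iso
  base := by
    intro x
    obtain ⟨p, rfl⟩ := c.e.e1.surjective x
    rw [c.e.iso_apply, c.e.v1, F.g_toX]
    rfl
  mero := by
    intro x _
    obtain ⟨V, f, hV, hxV, hf, hd, h⟩ := c.mero x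
    refine ⟨V, f, hV, hxV, hf, hd, ?_⟩
    intro y hy hyV h0
    obtain ⟨p, hp⟩ := c.e.e1.surjective ⟨y, hy⟩
    have hy' : y = F.toX p := by
      rw [← c.e.v1 p, hp]
    subst hy'
    have h3 : c.e.iso.toFun ⟨F.toX p, hy⟩ = c.e.iso.toFun (c.e.e1 p) := by rw [hp]
    rw [h3, c.e.iso_apply]
    exact h p hyV h0

/-- `X → Δ` is a Moishezon morphism. -/
theorem Flip.moishezon (F : Flip) (hx : F.XaFacts) (c : F.XcParts) : IsMoishezon F.O F.g :=
  ⟨4, mS, c.anS, ⟨F.bimer hx c⟩⟩

/-- `X → Δ` is a family. -/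
theorem Flip.isFamily_of (F : Flip) (hx : F.XaFacts) (hs : IsSpace F.O) (c : F.XcParts) :
    IsFamily F.O F.g where
  t2 := hx.t2
  second := hx.second
  space := hs
  hol := hx.hol
  disc := hx.disc
  proper := hx.proper
  flat := hx.flat
  moishezon := F.moishezon hx c

end Pool.Agent.KO
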