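import Mathlib

/-!
# Project KO, block Xc: roots depend continuously on the parameters (helper40)
-/

set_option autoImplicit false
set_option maxHeartbeats 400000

namespace Pool.Agent.KO

open Set Filter Topology Metric

/-- The zeros of an entire function, not identically zero, persist under small perturbations of
the function. -/
theorem root_cont {E : Type} [TopologicalSpace E] (P : E → ℂ → ℂ)
    (hP : Continuous fun p : E × ℂ => P p.1 p.2) (hd : ∀ e, Differentiable ℂ (P e)) (e0 : E)
    (w0 : ℂ) (h0 : P e0 w0 = 0) (hne : ∃ w, P e0 w ≠ 0) {W : Set ℂ} (hW : W ∈ 𝓝 w0) :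
    ∀ᶠ e in 𝓝 e0, ∃ w ∈ W, P e w = 0 := by
  have han : AnalyticOnNhd ℂ (P e0) univ := fun z _ => (hd e0).analyticAt z
  have hiso : ∀ᶠ w in 𝓝[≠] w0, P e0 w ≠ 0 := by
    rcases (han w0 (mem_univ _)).eventually_eq_zero_or_eventually_ne_zero with h | h
    · exfalso
      obtain ⟨w, hw⟩ := hne
      exact hw (han.eqOn_zero_of_preconnected_of_eventuallyEq_zero isPreconnected_univ
        (mem_univ w0) h (mem_univ w))
    · exact h
  rw [eventually_nhdsWithin_iff] at hiso
  obtain ⟨r, hr, hball⟩ := Metric.eventually_nhds_iff_ball.1 (hiso.and hW)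
  set s : ℝ := r / 2 with hs
  have hs0 : 0 < s := by positivity
  have hsub : closedBall w0 s ⊆ ball w0 r := closedBall_subset_ball (by rw [hs]; linarith)
  have hsph : ∀ w ∈ sphere w0 s, P e0 w ≠ 0 := by
    intro w hw
    refine (hball w (hsub (sphere_subset_closedBall hw))).1 ?_
    intro h
    rw [mem_singleton_iff] at h
    rw [h, mem_sphere, dist_self] at hw
    exact hs0.ne hw
  have hcs : IsCompact (sphere w0 s) := isCompact_sphere w0 s
  have hcont0 : Continuous fun w => ‖P e0 w‖ :=
    (hP.comp (Continuous.prodMk_right e0)).norm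
  obtain ⟨w1, hw1, hmin⟩ := hcs.exists_isMinOn
    ((NormedSpace.sphere_nonempty (E := ℂ)).2 hs0.le) hcont0.continuousOn
  set c : ℝ := ‖P e0 w1‖ with hc
  have hc0 : 0 < c := norm_pos_iff.2 (hsph w1 hw1)
  have h1 : ∀ᶠ e in 𝓝 e0, ∀ w ∈ sphere w0 s, c / 2 < ‖P e w‖ := by
    have hk := hcs.eventually_forall_of_forall_eventually (x₀ := e0)
      (P := fun e w => c / 2 < ‖P e w‖) ?_
    · exact hk
    · intro w hw
      have hlt : c / 2 < ‖P e0 w‖ := by
        have := hmin hw
        simp only [mem_ofPred_eq] at this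
        have h3 : c ≤ ‖P e0 w‖ := this
        linarith
      have hca : ContinuousAt (fun p : E × ℂ => ‖P p.1 p.2‖) (e0, w) := hP.norm.continuousAt
      exact hca.eventually_const_lt hlt
  have h2 : ∀ᶠ e in 𝓝 e0, ‖P e w0‖ < c / 2 := by
    have hc2 : Continuous fun e => ‖P e w0‖ := (hP.comp (Continuous.prodMk_left w0)).norm
    refine hc2.continuousAt.eventually_lt_const ?_
    change ‖P e0 w0‖ < c / 2
    rw [h0, norm_zero]
    positivity
  filter_upwards [h1, h2] with e he1 he2
  by_contra hcon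
  push Not at hcon
  have hnz : ∀ w ∈ closedBall w0 s, P e w ≠ 0 := fun w hw => hcon w (hball w (hsub hw)).2
  have hdiff : DiffContOnCl ℂ (fun w => (P e w)⁻¹) (ball w0 s) := by
    refine ((hd e).differentiableOn.inv ?_).diffContOnCl
    intro w hw
    exact hnz w (closure_ball_subset_closedBall hw)
  have hfr : ∀ w ∈ frontier (ball w0 s), ‖(P e w)⁻¹‖ ≤ 2 / c := by
    intro w hw
    rw [frontier_ball w0 hs0.ne'] at hw
    rw [norm_inv]
    have := (he1 w hw).le
    calc ‖P e w‖⁻¹ ≤ (c / 2)⁻¹ := inv_anti₀ (by positivity) this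
      _ = 2 / c := by rw [inv_div]
  have hle := Complex.norm_le_of_forall_mem_frontier_norm_le isBounded_ball hdiff hfr
    (subset_closure (mem_ball_self hs0))
  simp only [norm_inv] at hle
  have hpos : 0 < ‖P e w0‖ := norm_pos_iff.2 (hnz w0 (mem_closedBall_self hs0.le))
  have : c / 2 ≤ ‖P e w0‖ := by
    have h5 : (2 / c)⁻¹ ≤ ‖P e w0‖⁻¹⁻¹ := inv_anti₀ (by positivity) hle
    rwa [inv_inv, inv_div] at h5
  linarith

end Pool.Agent.KO
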