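import Pool.Agent.KO.Xc.Defs
import Pool.Agent.KO.Xc.Root

/-!
# Block Xc: the model is the closure of its affine part
-/

set_option autoImplicit false

namespace Pool.Agent.KO

open Set Filter Topology

/-- The polynomial `s ↦ hS (a, b + s, c + s, d, e) t` has degree 13 and leading coefficient 1,
hence it is not identically zero. -/
theorem dense_mS_ne (a b c d e t : ℂ) : ∃ s : ℂ,
    hS (fun i => ![a, b, c, d, e] i + s * ![0, 1, 1, 0, 0] i) t ≠ 0 := by
  classical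
  let p : Polynomial ℂ := (Polynomial.X + Polynomial.C b) ^ 12 * (Polynomial.X + Polynomial.C c)
  let q : Polynomial ℂ := Polynomial.C (e ^ 2 * a ^ 11 + d ^ 3 * a ^ 10 - a ^ 13)
    + Polynomial.C (t * a ^ 2) * (Polynomial.X + Polynomial.C c) ^ 11
    + Polynomial.C (a ^ 2) * ((Polynomial.X + Polynomial.C b) *
        (Polynomial.X + Polynomial.C c) ^ 10)
    - Polynomial.C (a ^ 4) * (Polynomial.X + Polynomial.C c) ^ 9
  have hp : p.Monic := ((Polynomial.monic_X_add_C b).pow 12).mul (Polynomial.monic_X_add_C c)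
  have hpd : p.natDegree = 13 := by
    rw [((Polynomial.monic_X_add_C b).pow 12).natDegree_mul (Polynomial.monic_X_add_C c),
      (Polynomial.monic_X_add_C b).natDegree_pow, Polynomial.natDegree_X_add_C,
      Polynomial.natDegree_X_add_C]
  have hq : q.natDegree ≤ 11 := by
    simp only [q]
    compute_degree
  have hdeg : q.degree < p.degree := by
    rw [Polynomial.degree_eq_natDegree hp.ne_zero, hpd]
    exact lt_of_le_of_lt (Polynomial.degree_le_of_natDegree_le hq) (by norm_num)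
  have hpq : (p + q) ≠ 0 := (hp.add_of_left hdeg).ne_zero
  by_contra hcon
  push Not at hcon
  apply hpq
  refine Polynomial.funext fun s => ?_
  have := hcon s
  simp only [hS, Matrix.cons_val_zero, Matrix.cons_val_one, Matrix.cons_val] at this
  simp only [p, q, Polynomial.eval_add, Polynomial.eval_mul, Polynomial.eval_pow,
    Polynomial.eval_X, Polynomial.eval_C, Polynomial.eval_sub, Polynomial.eval_zero]
  linear_combination this

/-- The projective model is the closure of its part outside of the exceptional set. -/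
theorem dense_mS (hh : HomFacts) (hp : PFacts 4) : mS ⊆ closure (mS \ mA) := by
  rintro ⟨pt, t⟩ hP
  obtain ⟨ht, hz⟩ := hP
  simp only at ht hz
  set T : Fin 5 → ℂ := pt.rep with hT
  have hT0 : T ≠ 0 := pt.rep_nonzero
  have hmk : Projectivization.mk ℂ T hT0 = pt := pt.mk_rep
  -- the family of vectors
  let vv : Fin 5 → ℂ := ![0, 1, 1, 0, 0]
  let ee0 : Fin 5 → ℂ := ![1, 0, 0, 0, 0]
  let V : ℂ → ℂ → Fin 5 → ℂ := fun ε s i => T i + ε * ee0 i + s * vv i
  have hV0 : V 0 0 = T := by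
    funext i
    simp [V]
  have hVc : Continuous (fun q : (ℂ × ℂ) × ℂ => V q.1.1 q.2) := by
    refine continuous_pi fun i => ?_
    simp only [V]
    fun_prop
  -- the function
  let P : ℂ × ℂ → ℂ → ℂ := fun e s => hS (V e.1 s) e.2
  have hPc : Continuous fun q : (ℂ × ℂ) × ℂ => P q.1 q.2 := by
    simp only [P, hS, V]
    fun_prop
  have hPd : ∀ e, Differentiable ℂ (P e) := by
    intro e
    simp only [P, hS, V]
    fun_prop
  have hPne : ∃ s, P (0, t) s ≠ 0 := by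
    obtain ⟨s, hs⟩ := dense_mS_ne (T 0) (T 1) (T 2) (T 3) (T 4) t
    refine ⟨s, ?_⟩
    have : V 0 s = fun i => ![T 0, T 1, T 2, T 3, T 4] i + s * ![0, 1, 1, 0, 0] i := by
      funext i
      fin_cases i <;> simp [V, vv, ee0]
    show hS (V 0 s) t ≠ 0
    rw [this]
    exact hs
  have hP0 : P (0, t) 0 = 0 := by
    show hS (V 0 0) t = 0
    rw [hV0]
    exact hz
  rw [mem_closure_iff_nhds]
  intro O hO
  -- pull the neighbourhood back
  have hcont : ContinuousAt (fun q : {v : Fin 5 → ℂ // v ≠ 0} × ℂ =>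
      ((Projectivization.mk ℂ q.1.1 q.1.2, q.2) : PN 4 × ℂ)) (⟨T, hT0⟩, t) :=
    hp.cont.continuousAt
  have h1 : ∀ᶠ q in 𝓝 ((⟨T, hT0⟩, t) : {v : Fin 5 → ℂ // v ≠ 0} × ℂ),
      ((Projectivization.mk ℂ q.1.1 q.1.2, q.2) : PN 4 × ℂ) ∈ O := by
    refine hcont ?_
    rw [mem_nhds_iff]
    obtain ⟨O', hO', hO'o, hm⟩ := mem_nhds_iff.1 hO
    refine ⟨O', hO', hO'o, ?_⟩
    show ((Projectivization.mk ℂ T hT0, t) : PN 4 × ℂ) ∈ O'
    rw [hmk]
    exact hm
  -- in terms of vectors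
  have h2 : ∀ᶠ q in 𝓝 ((T, t) : (Fin 5 → ℂ) × ℂ), ∀ h : q.1 ≠ 0,
      ((Projectivization.mk ℂ q.1 h, q.2) : PN 4 × ℂ) ∈ O := by
    rw [nhds_prod_eq, Filter.eventually_prod_iff] at h1
    obtain ⟨pa, hpa, pb, hpb, hab⟩ := h1
    rw [nhds_subtype_eq_comap, Filter.eventually_comap] at hpa
    rw [nhds_prod_eq, Filter.eventually_prod_iff]
    refine ⟨_, hpa, pb, hpb, ?_⟩
    intro v hv s hs h
    exact hab (hv ⟨v, h⟩ rfl) hs
  have h3 : ∀ᶠ q in 𝓝 (((0, t), 0) : (ℂ × ℂ) × ℂ), ∀ h : V q.1.1 q.2 ≠ 0,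
      ((Projectivization.mk ℂ (V q.1.1 q.2) h, q.1.2) : PN 4 × ℂ) ∈ O := by
    have hc : ContinuousAt (fun q : (ℂ × ℂ) × ℂ => (V q.1.1 q.2, q.1.2)) ((0, t), 0) :=
      (hVc.prodMk (continuous_snd.comp continuous_fst)).continuousAt
    have := hc.eventually (p := fun q => ∀ h : q.1 ≠ 0,
      ((Projectivization.mk ℂ q.1 h, q.2) : PN 4 × ℂ) ∈ O)
    refine this ?_
    show ∀ᶠ q in 𝓝 (V 0 0, t), _
    rw [hV0]
    exact h2
  rw [nhds_prod_eq, Filter.eventually_prod_iff] at h3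
  obtain ⟨pa, hpa, pb, hpb, hab⟩ := h3
  have h4 := root_cont P hPc hPd (0, t) 0 hP0 hPne (W := {s | pb s}) hpb
  have h5 : ∀ᶠ e in 𝓝 ((0, t) : ℂ × ℂ), ‖e.2‖ < 1 := by
    have hc : ContinuousAt (fun e : ℂ × ℂ => ‖e.2‖) (0, t) := by fun_prop
    exact hc.eventually_lt_const ht
  have hdense : Dense (({-T 0}ᶜ : Set ℂ) ×ˢ ({0}ᶜ : Set ℂ)) :=
    (dense_compl_singleton (-T 0)).prod (dense_compl_singleton 0)
  obtain ⟨⟨ε, t'⟩, ⟨he1, he2⟩, hev⟩ := hdense.inter_nhds_nonempty (hpa.and (h4.and h5))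
  obtain ⟨hpa', ⟨s, hs, hroot⟩, hn⟩ := hev
  simp only [mem_compl_iff, mem_singleton_iff] at he1 he2
  have hne0 : V ε s 0 ≠ 0 := by
    have : V ε s 0 = T 0 + ε := by simp [V, ee0, vv]
    rw [this]
    intro h
    apply he1
    linear_combination h
  have hne : V ε s ≠ 0 := fun h => hne0 (by rw [h]; rfl)
  refine ⟨(Projectivization.mk ℂ (V ε s) hne, t'), hab hpa' hs hne, ?_, ?_⟩
  · exact (hh.memS _ hne t').2 ⟨hn, hroot⟩
  · intro hA
    obtain ⟨-, h | ⟨h, -⟩⟩ := (hh.memA _ hne t').1 hA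
    · exact hne0 h
    · exact he2 h

end Pool.Agent.KO
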