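import Pool.Agent.KO.Xc.Defs

/-!
# Project KO, row Xc6: the affine part of `X`
-/

set_option autoImplicit false

namespace Pool.Agent.KO

open Set Filter Topology

/-- Normalisation of a point of the cone with `z ≠ 0`. -/
theorem e1_norm (p : Fin 6 → ℂ) (hp : p ∈ Cone ∧ p ∉ Gam) (h0 : p 0 ≠ 0) :
    (act (p 0)⁻¹ p ∈ Cone ∧ act (p 0)⁻¹ p ∉ Gam) ∧ act (p 0)⁻¹ p 0 = 1 := by
  have hi : (p 0)⁻¹ ≠ 0 := inv_ne_zero h0
  refine ⟨⟨(act_mem_Cone hi).2 hp.1, fun h => hp.2 ((act_mem_Gam hi).1 h)⟩, ?_⟩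
  rw [act_zero', inv_mul_cancel₀ h0]

/-- The normalisation is analytic. -/
theorem e1_an (p : Fin 6 → ℂ) (h0 : p 0 ≠ 0) :
    AnalyticAt ℂ (fun p' : Fin 6 → ℂ => act (p' 0)⁻¹ p') p := by
  rw [analyticAt_pi_iff]
  intro i
  have hc : ∀ j : Fin 6, AnalyticAt ℂ (fun p' : Fin 6 → ℂ => p' j) p := fun j =>
    (ContinuousLinearMap.proj (R := ℂ) (φ := fun _ : Fin 6 => ℂ) j).analyticAt p
  exact (((hc 0).inv h0).pow (wgt i)).mul (hc i)

/-- The normalisation is continuous. -/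
theorem e1_cont : ContinuousOn (fun p' : Fin 6 → ℂ => act (p' 0)⁻¹ p') {p | p 0 ≠ 0} := by
  intro p hp
  exact (e1_an p hp).continuousAt.continuousWithinAt

theorem Flip.e1 (F : Flip) (hx : F.XaFacts) : ∃ e : Aff ≃ₜ ↥({x | ‖F.g x‖ < 1} \ F.Z),
    (∀ p, (e p).1 = F.toX p) ∧ ∀ (f : ↥({x | ‖F.g x‖ < 1} \ F.Z) → ℂ) (p : Aff),
      res F.O ({x | ‖F.g x‖ < 1} \ F.Z) f (e p) ↔
        ∃ H : (Fin 6 → ℂ) → ℂ, AnalyticAt ℂ H p.1 ∧ ∀ᶠ p' in 𝓝 p, f (e p') = H p'.1 := by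
  classical
  have hS : ∀ p : Aff, F.toX p ∈ {x | ‖F.g x‖ < 1} \ F.Z := by
    intro p
    refine ⟨hx.disc _, fun h => ?_⟩
    have := (hx.desc.z1 ⟨p.1, p.2.1⟩).1 h
    have h1 := p.2.2
    simp only [] at this
    rw [h1] at this
    exact one_ne_zero this
  let φ : Aff → ↥({x | ‖F.g x‖ < 1} \ F.Z) := fun p => ⟨F.toX p, hS p⟩
  have hcM : Continuous (fun p : Aff => (⟨p.1, p.2.1⟩ : M1)) :=
    continuous_subtype_val.subtype_mk _
  have hφc : Continuous φ := (hx.top.cont1.comp hcM).subtype_mk _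
  have hinj : Function.Injective φ := by
    intro p p' h
    have h' : F.pi1 ⟨p.1, p.2.1⟩ = F.pi1 ⟨p'.1, p'.2.1⟩ := congrArg Subtype.val h
    obtain ⟨l, hl, hl'⟩ := (hx.rel.eq11 _ _).1 h'
    simp only [] at hl'
    have h0 := congrFun hl' 0
    rw [act_zero', p.2.2, p'.2.2, mul_one] at h0
    rw [← h0, act_one] at hl'
    exact (Subtype.ext hl').symm
  have hnorm : ∀ (p : M1) (h0 : p.1 0 ≠ 0),
      F.toX ⟨act (p.1 0)⁻¹ p.1, e1_norm p.1 p.2 h0⟩ = F.pi1 p := by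
    intro p h0
    exact ((hx.rel.eq11 _ _).2 ⟨(p.1 0)⁻¹, inv_ne_zero h0, rfl⟩).symm
  have hrep : ∀ x ∈ {x | ‖F.g x‖ < 1} \ F.Z, ∃ p : M1, p.1 0 ≠ 0 ∧ F.pi1 p = x := by
    intro x hxS
    rcases hx.rel.surj x with ⟨p, rfl⟩ | ⟨q, rfl, h3, -⟩
    · exact ⟨p, fun h0 => hxS.2 ((hx.desc.z1 p).2 h0), rfl⟩
    · exact absurd ((hx.desc.z2 q).2 h3) hxS.2
  have hsurj : Function.Surjective φ := by
    rintro ⟨x, hxS⟩
    obtain ⟨p, h0, rfl⟩ := hrep x hxS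
    exact ⟨⟨act (p.1 0)⁻¹ p.1, e1_norm p.1 p.2 h0⟩, Subtype.ext (hnorm p h0)⟩
  have hopen : IsOpenMap φ := by
    intro W hW
    obtain ⟨W', hW', rfl⟩ := isOpen_induced_iff.1 hW
    have hO : IsOpen {p : M1 | p.1 0 ≠ 0 ∧ act (p.1 0)⁻¹ p.1 ∈ W'} := by
      have h0 : IsOpen {p : Fin 6 → ℂ | p 0 ≠ 0} :=
        isOpen_ne_fun (continuous_apply 0) continuous_const
      have h1 : IsOpen ({p : Fin 6 → ℂ | p 0 ≠ 0} ∩ (fun p' => act (p' 0)⁻¹ p') ⁻¹' W') :=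
        e1_cont.isOpen_inter_preimage h0 hW'
      exact h1.preimage continuous_subtype_val
    have hI := (hx.top.open1 _ hO).preimage
      (continuous_subtype_val (p := fun x => x ∈ {x | ‖F.g x‖ < 1} \ F.Z))
    convert hI using 1
    ext ⟨x, hxS⟩
    constructor
    · rintro ⟨p, hp, hpx⟩
      have hpx' : F.pi1 ⟨p.1, p.2.1⟩ = x := congrArg Subtype.val hpx
      refine ⟨⟨p.1, p.2.1⟩, ⟨?_, ?_⟩, hpx'⟩
      · show p.1 0 ≠ 0
        rw [p.2.2]; exact one_ne_zero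
      · show act (p.1 0)⁻¹ p.1 ∈ W'
        rw [p.2.2, inv_one, act_one]; exact hp
    · rintro ⟨p, ⟨h0, hpW⟩, hpx⟩
      refine ⟨⟨act (p.1 0)⁻¹ p.1, e1_norm p.1 p.2 h0⟩, hpW, Subtype.ext ?_⟩
      exact (hnorm p h0).trans hpx
  let e : Aff ≃ₜ ↥({x | ‖F.g x‖ < 1} \ F.Z) :=
    (Equiv.ofBijective φ ⟨hinj, hsurj⟩).toHomeomorphOfContinuousOpen hφc hopen
  have he : ∀ p, e p = φ p := fun p => rfl
  refine ⟨e, fun p => rfl, fun f p => ?_⟩
  constructor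
  · rintro ⟨f', hf', hff'⟩
    obtain ⟨H, hH, hHe⟩ := (hx.ofacts.o1 f' ⟨p.1, p.2.1⟩).1 hf'
    refine ⟨H, hH, ?_⟩
    have h1 := (hcM.continuousAt (x := p)).eventually hHe
    have h2 := (e.continuous.continuousAt (x := p)).eventually hff'
    filter_upwards [h1, h2] with p' h1 h2
    rw [h2, ← h1]
    rfl
  · rintro ⟨H, hH, hHe⟩
    have hinv : ∀ l : ℂ, l ≠ 0 → ∀ p' : Fin 6 → ℂ,
        (fun p' : Fin 6 → ℂ => H (act (p' 0)⁻¹ p')) (act l p') =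
          (fun p' : Fin 6 → ℂ => H (act (p' 0)⁻¹ p')) p' := by
      intro l hl p'
      simp only []
      rw [act_zero', act_act, mul_inv, mul_right_comm, inv_mul_cancel₀ hl, one_mul]
    have h1 : act (p.1 0)⁻¹ p.1 = p.1 := by rw [p.2.2, inv_one, act_one]
    have han : AnalyticAt ℂ (fun p' : Fin 6 → ℂ => H (act (p' 0)⁻¹ p')) p.1 := by
      have h0 : p.1 0 ≠ 0 := by rw [p.2.2]; exact one_ne_zero
      have hH' : AnalyticAt ℂ H ((fun p' : Fin 6 → ℂ => act (p' 0)⁻¹ p') p.1) := by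
        simp only []
        rw [h1]; exact hH
      exact AnalyticAt.comp (g := H) (f := fun p' : Fin 6 → ℂ => act (p' 0)⁻¹ p') hH' (e1_an p.1 h0)
    refine ⟨F.desc1 (fun p' : Fin 6 → ℂ => H (act (p' 0)⁻¹ p')),
      hx.desc.h1 _ hinv ⟨p.1, p.2.1⟩ han, ?_⟩
    have ht : Tendsto e.symm (𝓝 (e p)) (𝓝 p) := by
      have := e.symm.continuous.continuousAt (x := e p)
      rwa [ContinuousAt, e.symm_apply_apply] at this
    filter_upwards [ht.eventually hHe] with y hy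
    rw [e.apply_symm_apply] at hy
    rw [hy]
    have hy2 : y.1 = F.pi1 ⟨(e.symm y).1, (e.symm y).2.1⟩ := by
      have := congrArg Subtype.val (e.apply_symm_apply y)
      exact this.symm
    rw [hy2, hx.desc.v1 _ hinv]
    simp only []
    rw [(e.symm y).2.2, inv_one, act_one]

end Pool.Agent.KO
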