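import Pool.Agent.KO.Xc.Defs

/-!
# Project KO, block Xc: the affine part of the projective model (helper38)
-/

set_option autoImplicit false

namespace Pool.Agent.KO

open Set Filter Topology

/-- The affine coordinates of `(v, t)`. -/
noncomputable def e2aff (q : (Fin 5 → ℂ) × ℂ) : Fin 6 → ℂ :=
  ![1, q.1 1 / q.1 0, q.1 2 / q.1 0, q.1 3 / q.1 0, q.1 4 / q.1 0, q.2]

/-- The affine coordinates of a point of `ℙ⁴ × ℂ`. -/
noncomputable def e2inv (Q : PN 4 × ℂ) : Fin 6 → ℂ := e2aff (Q.1.rep, Q.2)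

theorem e2inv_mk (v : Fin 5 → ℂ) (hv : v ≠ 0) (t : ℂ) :
    e2inv ((Projectivization.mk ℂ v hv, t) : PN 4 × ℂ) = e2aff (v, t) := by
  obtain ⟨a, ha⟩ := (Projectivization.mk_eq_mk_iff ℂ _ _
    (Projectivization.rep_nonzero (Projectivization.mk ℂ v hv)) hv).1
    (Projectivization.mk_rep (Projectivization.mk ℂ v hv))
  have h1 : ∀ i j : Fin 5, (Projectivization.mk ℂ v hv).rep i /
      (Projectivization.mk ℂ v hv).rep j = v i / v j := by
    intro i j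
    rw [← ha]
    show (a : ℂ) * v i / ((a : ℂ) * v j) = _
    rw [mul_div_mul_left _ _ a.ne_zero]
  unfold e2inv e2aff
  simp only [h1]

theorem e2vec (v : Fin 5 → ℂ) (h0 : v 0 ≠ 0) (t : ℂ) :
    vec (e2aff (v, t)) = (v 0)⁻¹ • v := by
  funext i
  fin_cases i
  · show (1 : ℂ) = (v 0)⁻¹ * v 0
    rw [inv_mul_cancel₀ h0]
  · show v 1 / v 0 = (v 0)⁻¹ * v 1
    rw [div_eq_inv_mul]
  · show v 2 / v 0 = (v 0)⁻¹ * v 2
    rw [div_eq_inv_mul]
  · show v 3 / v 0 = (v 0)⁻¹ * v 3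
    rw [div_eq_inv_mul]
  · show v 4 / v 0 = (v 0)⁻¹ * v 4
    rw [div_eq_inv_mul]

theorem e2toP (v : Fin 5 → ℂ) (hv : v ≠ 0) (h0 : v 0 ≠ 0) (t : ℂ) :
    toP (e2aff (v, t)) = ((Projectivization.mk ℂ v hv, t) : PN 4 × ℂ) := by
  apply Prod.ext
  · show Projectivization.mk ℂ (vec (e2aff (v, t))) _ = Projectivization.mk ℂ v hv
    rw [Projectivization.mk_eq_mk_iff]
    refine ⟨Units.mk0 (v 0)⁻¹ (inv_ne_zero h0), ?_⟩
    rw [e2vec v h0 t]
    rfl
  · rfl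

theorem e2aff_vec (p : Fin 6 → ℂ) (hp : p 0 = 1) : e2aff (vec p, p 5) = p := by
  funext i
  fin_cases i
  · exact hp.symm
  · show p 1 / 1 = p 1
    rw [div_one]
  · show p 2 / 1 = p 2
    rw [div_one]
  · show p 3 / 1 = p 3
    rw [div_one]
  · show p 4 / 1 = p 4
    rw [div_one]
  · rfl

theorem e2_analytic_aff (q : (Fin 5 → ℂ) × ℂ) (h0 : q.1 0 ≠ 0) : AnalyticAt ℂ e2aff q := by
  have hc : ∀ i : Fin 5, AnalyticAt ℂ (fun q : (Fin 5 → ℂ) × ℂ => q.1 i) q := fun i =>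
    ((ContinuousLinearMap.proj (R := ℂ) (φ := fun _ : Fin 5 => ℂ) i).comp
      (ContinuousLinearMap.fst ℂ (Fin 5 → ℂ) ℂ)).analyticAt q
  rw [analyticAt_pi_iff]
  intro i
  fin_cases i
  · exact analyticAt_const
  · exact (hc 1).div (hc 0) h0
  · exact (hc 2).div (hc 0) h0
  · exact (hc 3).div (hc 0) h0
  · exact (hc 4).div (hc 0) h0
  · exact (ContinuousLinearMap.snd ℂ (Fin 5 → ℂ) ℂ).analyticAt q

theorem e2_analytic_vec (p : Fin 6 → ℂ) :
    AnalyticAt ℂ (fun p' : Fin 6 → ℂ => ((vec p', p' 5) : (Fin 5 → ℂ) × ℂ)) p := by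
  have hc : ∀ i : Fin 6, AnalyticAt ℂ (fun p' : Fin 6 → ℂ => p' i) p := fun i =>
    (ContinuousLinearMap.proj (R := ℂ) (φ := fun _ : Fin 6 => ℂ) i).analyticAt p
  have h1 : AnalyticAt ℂ (fun p' : Fin 6 → ℂ => vec p') p := by
    rw [analyticAt_pi_iff]
    intro i
    fin_cases i
    · exact analyticAt_const
    · exact hc 1
    · exact hc 2
    · exact hc 3
    · exact hc 4
  exact h1.prod (hc 5)

theorem e2_cont_inv (hp : PFacts 4) (v : Fin 5 → ℂ) (hv : v ≠ 0) (h0 : v 0 ≠ 0) (t : ℂ) :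
    ContinuousAt e2inv ((Projectivization.mk ℂ v hv, t) : PN 4 × ℂ) := by
  have h1 := hp.openMap.nhds_le (⟨v, hv⟩, t)
  refine Tendsto.mono_left ?_ h1
  rw [tendsto_map'_iff]
  have h2 : (e2inv ∘ fun q : {v : Fin (4 + 1) → ℂ // v ≠ 0} × ℂ =>
      ((Projectivization.mk ℂ q.1.1 q.1.2, q.2) : PN 4 × ℂ)) = fun q => e2aff (q.1.1, q.2) := by
    funext q
    exact e2inv_mk q.1.1 q.1.2 q.2
  rw [h2, e2inv_mk]
  have h3 : ContinuousAt (fun q : {v : Fin (4 + 1) → ℂ // v ≠ 0} × ℂ =>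
      ((q.1.1, q.2) : (Fin 5 → ℂ) × ℂ)) (⟨v, hv⟩, t) := by fun_prop
  exact (e2_analytic_aff (v, t) h0).continuousAt.comp_of_eq h3 rfl

theorem e2_mem (hh : HomFacts) (p : Aff) : toP p.1 ∈ mS \ mA := by
  obtain ⟨⟨⟨hG, -, ht⟩, hgam⟩, h0⟩ := p.2
  constructor
  · refine (hh.memS _ (vec_ne _) _).2 ⟨ht, ?_⟩
    have h1 := hh.aff p.1 h0
    rw [← hG, ← h1]
    rfl
  · intro h
    obtain ⟨-, h | ⟨h5, h1, h3, h4⟩⟩ := (hh.memA _ (vec_ne _) _).1 h
    · exact one_ne_zero h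
    · apply hgam
      refine ⟨h5, h1, ?_, ?_⟩
      · have h3' : p.1 3 * (1 : ℂ) ^ 2 = p.1 2 ^ 3 := h3
        rw [h0, one_pow, one_mul, ← h3', one_pow, mul_one]
      · have h4' : p.1 4 = 1 := h4
        rw [h4', h0, one_pow]

theorem e2_rep0 {Q : PN 4 × ℂ} (hQ : Q ∈ mS \ mA) : Q.1.rep 0 ≠ 0 := by
  intro h
  exact hQ.2 ⟨hQ.1.1, Or.inl h⟩

theorem e2_toP_inv {Q : PN 4 × ℂ} (hQ : Q ∈ mS \ mA) : toP (e2inv Q) = Q := by
  have h1 := e2toP Q.1.rep Q.1.rep_nonzero (e2_rep0 hQ) Q.2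
  show toP (e2aff (Q.1.rep, Q.2)) = Q
  rw [h1]
  apply Prod.ext
  · exact Q.1.mk_rep
  · rfl

theorem e2_inv_mem (hh : HomFacts) {Q : PN 4 × ℂ} (hQ : Q ∈ mS \ mA) :
    (e2inv Q ∈ Cone ∧ e2inv Q ∉ Gam) ∧ e2inv Q 0 = 1 := by
  have h0 : e2inv Q 0 = 1 := rfl
  have hQ' : toP (e2inv Q) ∈ mS \ mA := by rw [e2_toP_inv hQ]; exact hQ
  have h1 := (hh.memS _ (vec_ne (e2inv Q)) (e2inv Q 5)).1 hQ'.1
  have hG := hh.aff (e2inv Q) h0
  have hG' : G (e2inv Q) = 0 := by rw [← hG]; exact h1.2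
  refine ⟨⟨⟨hG', ⟨0, by decide, ?_⟩, h1.1⟩, ?_⟩, h0⟩
  · rw [h0]; exact one_ne_zero
  · rintro ⟨h5, h1', h3, h4⟩
    apply hQ'.2
    refine (hh.memA _ (vec_ne (e2inv Q)) (e2inv Q 5)).2 ⟨h1.1, Or.inr ⟨h5, h1', ?_, ?_⟩⟩
    · show e2inv Q 3 * (1 : ℂ) ^ 2 = e2inv Q 2 ^ 3
      rw [h3, h0, one_pow, one_pow, one_mul, mul_one]
    · show e2inv Q 4 = 1
      rw [h4, h0, one_pow]

/-- The homeomorphism from the affine part of the cone to the open part of the model. -/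
noncomputable def e2homeo (hh : HomFacts) (hp : PFacts 4) : Aff ≃ₜ ↥(mS \ mA) where
  toFun p := ⟨toP p.1, e2_mem hh p⟩
  invFun Q := ⟨e2inv Q.1, e2_inv_mem hh Q.2⟩
  left_inv p := by
    apply Subtype.ext
    show e2inv (toP p.1) = p.1
    unfold toP
    rw [e2inv_mk, e2aff_vec p.1 p.2.2]
  right_inv Q := Subtype.ext (e2_toP_inv Q.2)
  continuous_toFun := by
    refine Continuous.subtype_mk ?_ _
    have h1 : Continuous (fun p : Aff => ((⟨vec p.1, vec_ne p.1⟩, p.1 5) :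
        {v : Fin (4 + 1) → ℂ // v ≠ 0} × ℂ)) := by
      refine Continuous.prodMk (Continuous.subtype_mk ?_ _) ?_
      · have h2 : Continuous (fun p : Fin 6 → ℂ => ((vec p, p 5) : (Fin 5 → ℂ) × ℂ)) :=
          continuous_iff_continuousAt.2 fun p => (e2_analytic_vec p).continuousAt
        exact (continuous_fst.comp h2).comp continuous_subtype_val
      · exact (continuous_apply 5).comp continuous_subtype_val
    exact hp.cont.comp h1
  continuous_invFun := by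
    refine Continuous.subtype_mk ?_ _
    rw [continuous_iff_continuousAt]
    intro Q
    have h1 : ContinuousAt e2inv Q.1 := by
      have h2 := e2_cont_inv hp Q.1.1.rep Q.1.1.rep_nonzero (e2_rep0 Q.2) Q.1.2
      have h3 : ((Projectivization.mk ℂ Q.1.1.rep Q.1.1.rep_nonzero, Q.1.2) : PN 4 × ℂ) = Q.1 :=
        Prod.ext Q.1.1.mk_rep rfl
      rw [h3] at h2
      exact h2
    exact ContinuousAt.comp (g := e2inv) (f := fun Q : ↥(mS \ mA) => Q.1) h1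
      continuous_subtype_val.continuousAt

theorem e2 (hh : HomFacts) (hp : PFacts 4) : ∃ e : Aff ≃ₜ ↥(mS \ mA),
    (∀ p, (e p).1 = toP p.1) ∧ ∀ (f : ↥(mS \ mA) → ℂ) (p : Aff),
      res (stdP 4) (mS \ mA) f (e p) ↔ ∃ H : (Fin 6 → ℂ) → ℂ, AnalyticAt ℂ H p.1 ∧
        ∀ᶠ p' in 𝓝 p, f (e p') = H p'.1 := by
  refine ⟨e2homeo hh hp, fun p => rfl, fun f p => ⟨?_, ?_⟩⟩
  · rintro ⟨F, hF, hfF⟩
    obtain ⟨H, hH, hFH⟩ := (hp.test F (vec p.1) (vec_ne p.1) (p.1 5)).1 hF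
    refine ⟨fun p' => H (vec p', p' 5), ?_, ?_⟩
    · exact AnalyticAt.comp (g := H) (f := fun p' : Fin 6 → ℂ => (vec p', p' 5)) hH
        (e2_analytic_vec p.1)
    · have h1 : ∀ᶠ p' in 𝓝 p, f (e2homeo hh hp p') = F (e2homeo hh hp p').1 :=
        (e2homeo hh hp).continuous.continuousAt.eventually hfF
      have h2 : ContinuousAt (fun p' : Aff => ((vec p'.1, p'.1 5) : (Fin 5 → ℂ) × ℂ)) p :=
        ContinuousAt.comp (f := Subtype.val) (e2_analytic_vec p.1).continuousAt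
          continuous_subtype_val.continuousAt
      filter_upwards [h1, h2.eventually hFH] with p' h3 h4
      rw [h3]
      exact h4 (vec_ne p'.1)
  · rintro ⟨H, hH, hfH⟩
    refine ⟨fun Q => H (e2inv Q), ?_, ?_⟩
    · refine (hp.test _ (vec p.1) (vec_ne p.1) (p.1 5)).2
        ⟨fun q => H (e2aff q), ?_, Eventually.of_forall fun q h => ?_⟩
      · have h1 : AnalyticAt ℂ H (e2aff (vec p.1, p.1 5)) := by
          rw [e2aff_vec p.1 p.2.2]; exact hH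
        exact AnalyticAt.comp (g := H) (f := e2aff) h1
          (e2_analytic_aff (vec p.1, p.1 5) one_ne_zero)
      · show H (e2inv (Projectivization.mk ℂ q.1 h, q.2)) = H (e2aff q)
        rw [e2inv_mk]
    · have h1 : Tendsto (e2homeo hh hp).symm (𝓝 (e2homeo hh hp p)) (𝓝 p) := by
        have h2 := (e2homeo hh hp).symm.continuous.continuousAt (x := e2homeo hh hp p)
        unfold ContinuousAt at h2
        rw [Homeomorph.symm_apply_apply] at h2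
        exact h2
      filter_upwards [h1.eventually hfH] with y hy
      rw [Homeomorph.apply_symm_apply] at hy
      exact hy

end Pool.Agent.KO
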