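import Pool.Agent.KO.Xc.Defs

/-!
# Block Xc: homogeneity of the model equation (row Xc1, helper62)
-/

set_option autoImplicit false

namespace Pool.Agent.KO

open Set Filter Topology

theorem hom_hS (c : ℂ) (T : Fin 5 → ℂ) (t : ℂ) : hS (c • T) t = c ^ 13 * hS T t := by
  simp only [hS, Pi.smul_apply, smul_eq_mul]
  ring

theorem rep_eq (T : Fin 5 → ℂ) (hT : T ≠ 0) :
    ∃ c : ℂ, c ≠ 0 ∧ (Projectivization.mk ℂ T hT).rep = c • T := by
  obtain ⟨a, ha⟩ := Projectivization.exists_smul_eq_mk_rep ℂ T hT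
  exact ⟨(a : ℂ), a.ne_zero, by rw [← ha]; rfl⟩

theorem homFacts : HomFacts where
  hom := hom_hS
  memS T hT t := by
    obtain ⟨c, hc, h⟩ := rep_eq T hT
    show (‖t‖ < 1 ∧ hS (Projectivization.mk ℂ T hT).rep t = 0) ↔ _
    rw [h, hom_hS, mul_eq_zero, or_iff_right (pow_ne_zero 13 hc)]
  memA T hT t := by
    obtain ⟨c, hc, h⟩ := rep_eq T hT
    show (‖t‖ < 1 ∧ ((Projectivization.mk ℂ T hT).rep 0 = 0 ∨
      (t = 0 ∧ (Projectivization.mk ℂ T hT).rep 1 = 0 ∧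
        (Projectivization.mk ℂ T hT).rep 3 * (Projectivization.mk ℂ T hT).rep 0 ^ 2 =
          (Projectivization.mk ℂ T hT).rep 2 ^ 3 ∧
        (Projectivization.mk ℂ T hT).rep 4 = (Projectivization.mk ℂ T hT).rep 0))) ↔ _
    rw [h]
    simp only [Pi.smul_apply, smul_eq_mul]
    have e1 : ∀ x : ℂ, c * x = 0 ↔ x = 0 := fun x => by
      rw [mul_eq_zero, or_iff_right hc]
    have e2 : c * T 3 * (c * T 0) ^ 2 = (c * T 2) ^ 3 ↔ T 3 * T 0 ^ 2 = T 2 ^ 3 := by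
      rw [show c * T 3 * (c * T 0) ^ 2 = c ^ 3 * (T 3 * T 0 ^ 2) by ring,
        show (c * T 2) ^ 3 = c ^ 3 * T 2 ^ 3 by ring]
      exact mul_right_inj' (pow_ne_zero 3 hc)
    have e3 : c * T 4 = c * T 0 ↔ T 4 = T 0 := mul_right_inj' hc
    rw [e1, e1, e2, e3]
  aff p hp := by
    simp [hS, G, hp]

end Pool.Agent.KO
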