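import Pool.Agent.KO.Xc.Defs

/-!
# The bimeromorphic map is locally given by holomorphic functions (block Xc)
-/

set_option autoImplicit false

namespace Pool.Agent.KO

open Set Filter Topology

namespace MeroAux

/-- The weights of `1, u, w, x, y`. -/
def d : Fin 5 → ℕ := ![0, 5, 6, 22, 33]

theorem d_le (k : Fin 5) : d k ≤ 330 := by
  fin_cases k <;> simp [d]

theorem vec_act (l : ℂ) (p : Fin 6 → ℂ) (k : Fin 5) : vec (act l p) k = l ^ d k * vec p k := by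
  fin_cases k
  · simp [vec, d]
  · simp [vec, d, act_one']
  · show act l p 2 = l ^ 6 * p 2
    exact act_two' l p
  · show act l p 3 = l ^ 22 * p 3
    exact act_three' l p
  · show act l p 4 = l ^ 33 * p 4
    exact act_four' l p

theorem wgt_mul (i : Fin 6) (hi : i ≠ 5) : wgt i * (330 / wgt i) = 330 := by
  fin_cases i
  · rfl
  · rfl
  · rfl
  · rfl
  · rfl
  · exact absurd rfl hi

/-- The functions on the chart `V1 i`. -/
noncomputable def h1 (i : Fin 6) (k : Fin 5) (p : Fin 6 → ℂ) : ℂ :=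
  p 0 ^ (330 - d k) * vec p k / p i ^ (330 / wgt i)

theorem pow_split (z : ℂ) (k : Fin 5) : z ^ (330 - d k) * z ^ d k = z ^ 330 := by
  rw [← pow_add, Nat.sub_add_cancel (d_le k)]

theorem h1_act (i : Fin 6) (hi : i ≠ 5) (k : Fin 5) (l : ℂ) (hl : l ≠ 0) (p : Fin 6 → ℂ) :
    h1 i k (act l p) = h1 i k p := by
  unfold h1
  rw [vec_act, act_zero']
  have e : act l p i ^ (330 / wgt i) = l ^ 330 * p i ^ (330 / wgt i) := by
    simp only [act]
    rw [mul_pow, ← pow_mul, wgt_mul i hi]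
  rw [e, mul_pow]
  have e2 : l ^ (330 - d k) * p 0 ^ (330 - d k) * (l ^ d k * vec p k) =
      l ^ 330 * (p 0 ^ (330 - d k) * vec p k) := by
    rw [← pow_split l k]
    ring
  rw [e2, mul_div_mul_left _ _ (pow_ne_zero _ hl)]

theorem analyticAt_vec (k : Fin 5) (p : Fin 6 → ℂ) : AnalyticAt ℂ (fun p => vec p k) p := by
  have hp : ∀ i : Fin 6, AnalyticAt ℂ (fun p : Fin 6 → ℂ => p i) p := fun i =>
    (ContinuousLinearMap.proj (R := ℂ) (φ := fun _ : Fin 6 => ℂ) i).analyticAt p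
  fin_cases k
  · exact analyticAt_const
  · exact hp 1
  · exact hp 2
  · exact hp 3
  · exact hp 4

theorem h1_an (i : Fin 6) (k : Fin 5) (p : Fin 6 → ℂ) (hp : p i ≠ 0) :
    AnalyticAt ℂ (h1 i k) p := by
  have hp' : ∀ i : Fin 6, AnalyticAt ℂ (fun p : Fin 6 → ℂ => p i) p := fun i =>
    (ContinuousLinearMap.proj (R := ℂ) (φ := fun _ : Fin 6 => ℂ) i).analyticAt p
  exact (((hp' 0).pow _).mul (analyticAt_vec k p)).div ((hp' i).pow _) (pow_ne_zero _ hp)

/-- The functions on the chart `V2 j`. -/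
noncomputable def h2 (F : Flip) (j : Fin 5) (k : Fin 5) (q : Fin 5 → ℂ) : ℂ :=
  q 3 ^ (330 - d k) * vec (F.Φ q) k * q j ^ (330 / (j.1 + 1))

theorem h2_act (F : Flip) (j : Fin 5) (hj : j.1 < 3) (k : Fin 5) (l : ℂ) (hl : l ≠ 0)
    (q : Fin 5 → ℂ) (hq : q ∈ Dom F.ρ) : h2 F j k (act' l q) = h2 F j k q := by
  unfold h2
  rw [F.Φact l hl q hq, vec_act, act'_three']
  have e : act' l q j ^ (330 / (j.1 + 1)) = (l ^ 330)⁻¹ * q j ^ (330 / (j.1 + 1)) := by
    fin_cases j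
    · show act' l q 0 ^ 330 = (l ^ 330)⁻¹ * q 0 ^ 330
      rw [act'_zero', mul_pow, inv_pow]
    · show act' l q 1 ^ 165 = (l ^ 330)⁻¹ * q 1 ^ 165
      rw [act'_one', mul_pow, inv_pow, ← pow_mul]
    · show act' l q 2 ^ 110 = (l ^ 330)⁻¹ * q 2 ^ 110
      rw [act'_two', mul_pow, inv_pow, ← pow_mul]
    · exact absurd hj (by decide)
    · exact absurd hj (by decide)
  rw [e, mul_pow]
  have e2 : l ^ (330 - d k) * q 3 ^ (330 - d k) * (l ^ d k * vec (F.Φ q) k) *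
      ((l ^ 330)⁻¹ * q j ^ (330 / (j.1 + 1))) =
      (l ^ 330 * (l ^ 330)⁻¹) * (q 3 ^ (330 - d k) * vec (F.Φ q) k *
        q j ^ (330 / (j.1 + 1))) := by
    rw [← pow_split l k]
    ring
  rw [e2, mul_inv_cancel₀ (pow_ne_zero _ hl), one_mul]

theorem h2_an (F : Flip) (j : Fin 5) (k : Fin 5) (q : Fin 5 → ℂ) (hq : q ∈ Dom F.ρ) :
    AnalyticAt ℂ (h2 F j k) q := by
  have hp' : ∀ i : Fin 5, AnalyticAt ℂ (fun p : Fin 5 → ℂ => p i) q := fun i =>
    (ContinuousLinearMap.proj (R := ℂ) (φ := fun _ : Fin 5 => ℂ) i).analyticAt q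
  have hv : AnalyticAt ℂ (fun q => vec (F.Φ q) k) q := by
    fin_cases k
    · exact analyticAt_const
    · exact F.an 1 q hq
    · exact F.an 2 q hq
    · exact F.an 3 q hq
    · exact F.an 4 q hq
  exact (((hp' 3).pow _).mul hv).mul ((hp' j).pow _)

end MeroAux

open MeroAux in
theorem Flip.mero (F : Flip) (hx : F.XaFacts) : F.MeroFact := by
  have hdesc := hx.desc
  intro x
  rcases hdesc.cover x with ⟨i, hi, hxi⟩ | ⟨⟨j, hj, hxj⟩, -⟩
  · have inv : ∀ k, ∀ l : ℂ, l ≠ 0 → ∀ p, h1 i k (act l p) = h1 i k p :=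
      fun k l hl p => h1_act i hi k l hl p
    refine ⟨F.V1 i, fun k => F.desc1 (h1 i k), hdesc.open1 i, hxi, ?_, ?_, ?_⟩
    · rintro k y ⟨p, rfl, hp⟩
      exact hdesc.h1 _ (inv k) p (h1_an i k p.1 hp)
    · refine (Dense.open_subset_closure_inter hx.dens.dz (hdesc.open1 i)).trans
        (closure_mono ?_)
      rintro y ⟨⟨p, rfl, hp⟩, hz⟩
      refine ⟨⟨p, rfl, hp⟩, fun h0 => ?_⟩
      have h00 : F.desc1 (h1 i 0) (F.pi1 p) = 0 := congrFun h0 0
      rw [hdesc.v1 _ (inv 0)] at h00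
      have hz' : p.1 0 ≠ 0 := fun h => hz ((hdesc.z1 p).2 h)
      have : h1 i 0 p.1 ≠ 0 := by
        unfold h1
        refine div_ne_zero (mul_ne_zero (pow_ne_zero _ hz') ?_) (pow_ne_zero _ hp)
        simp [vec]
      exact this h00
    · intro p hp h
      have hpi : p.1 i ≠ 0 := (hdesc.mem1 i ⟨p.1, p.2.1⟩).1 hp
      symm
      rw [toP]
      rw [Projectivization.mk_eq_mk_iff']
      refine ⟨(p.1 i ^ (330 / wgt i))⁻¹, ?_⟩
      funext k
      show (p.1 i ^ (330 / wgt i))⁻¹ * vec p.1 k = F.desc1 (h1 i k) (F.toX p)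
      have e : F.desc1 (h1 i k) (F.toX p) = h1 i k p.1 := hdesc.v1 _ (inv k) ⟨p.1, p.2.1⟩
      rw [e, h1, p.2.2, one_pow, one_mul]
      ring
  · have inv : ∀ k, ∀ l : ℂ, l ≠ 0 → ∀ q ∈ Dom F.ρ, h2 F j k (act' l q) = h2 F j k q :=
      fun k l hl q hq => h2_act F j hj k l hl q hq
    refine ⟨F.V2 j, fun k => F.desc2 (h2 F j k), hdesc.open2 j, hxj, ?_, ?_, ?_⟩
    · rintro k y ⟨q, rfl, hq⟩
      exact hdesc.h2 _ (inv k) q (h2_an F j k q.1 q.2.1)
    · refine (Dense.open_subset_closure_inter hx.dens.dz (hdesc.open2 j)).trans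
        (closure_mono ?_)
      rintro y ⟨⟨q, rfl, hq⟩, hz⟩
      refine ⟨⟨q, rfl, hq⟩, fun h0 => ?_⟩
      have h00 : F.desc2 (h2 F j 0) (F.pi2 q) = 0 := congrFun h0 0
      rw [hdesc.v2 _ (inv 0)] at h00
      have hz' : q.1 3 ≠ 0 := fun h => hz ((hdesc.z2 q).2 h)
      have : h2 F j 0 q.1 ≠ 0 := by
        unfold h2
        refine mul_ne_zero (mul_ne_zero (pow_ne_zero _ hz') ?_) (pow_ne_zero _ hq)
        simp [vec]
      exact this h00
    · intro p hp h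
      obtain ⟨q, hqp, hqj⟩ := hp
      obtain ⟨-, l, hl, hpl⟩ := (hx.rel.eq12 ⟨p.1, p.2.1⟩ q).1 hqp.symm
      have hpl' : p.1 = act l (F.Φ q.1) := hpl
      have hl3 : l * q.1 3 = 1 := by
        have := p.2.2
        rw [hpl', act_zero', F.Φz] at this
        exact this
      symm
      rw [toP]
      rw [Projectivization.mk_eq_mk_iff']
      refine ⟨q.1 3 ^ 330 * q.1 j ^ (330 / (j.1 + 1)), ?_⟩
      funext k
      show q.1 3 ^ 330 * q.1 j ^ (330 / (j.1 + 1)) * vec p.1 k =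
        F.desc2 (h2 F j k) (F.toX p)
      have e : F.desc2 (h2 F j k) (F.toX p) = h2 F j k q.1 := by
        rw [← hqp]
        exact hdesc.v2 _ (inv k) q
      rw [e, h2, hpl', vec_act, ← pow_split (q.1 3) k]
      have e3 : q.1 3 ^ d k * l ^ d k = 1 := by
        rw [← mul_pow, mul_comm, hl3, one_pow]
      calc q.1 3 ^ (330 - d k) * q.1 3 ^ d k * q.1 j ^ (330 / (j.1 + 1)) *
            (l ^ d k * vec (F.Φ q.1) k)
          = q.1 3 ^ (330 - d k) * (q.1 3 ^ d k * l ^ d k) * vec (F.Φ q.1) k *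
            q.1 j ^ (330 / (j.1 + 1)) := by ring
        _ = q.1 3 ^ (330 - d k) * vec (F.Φ q.1) k * q.1 j ^ (330 / (j.1 + 1)) := by
            rw [e3, mul_one]

end Pool.Agent.KO
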