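import Pool.Agent.KO.Xa.Main
import Pool.Agent.KO.Xc.Asm
import Pool.Agent.KO.Xc.Hom
import Pool.Agent.KO.Xc.P
import Pool.Agent.KO.Xc.DenseS
import Pool.Agent.KO.Xc.AnS
import Pool.Agent.KO.Xc.AnZ
import Pool.Agent.KO.Xc.E1
import Pool.Agent.KO.Xc.E2
import Pool.Agent.KO.Xc.Mero

/-!
# Blocks Xa and Xc: `X → Δ` is a family, if it is a complex space
-/

set_option autoImplicit false

namespace Pool.Agent.KO

theorem Flip.xcParts (F : Flip) : Nonempty F.XcParts := by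
  have hx := F.xaFacts
  have hh := homFacts
  have hp := pFacts 4
  obtain ⟨f1, v1, h1⟩ := F.e1 hx
  obtain ⟨f2, v2, h2⟩ := e2 hh hp
  exact ⟨⟨an_mS hh hp, an_mA hh hp, F.an_Z hx, dense_mS hh hp, ⟨f1, f2, v1, v2, h1, h2⟩,
    F.mero hx⟩⟩

/-- `X → Δ` is a Moishezon morphism. -/
theorem Flip.isMoishezon (F : Flip) : IsMoishezon F.O F.g := by
  obtain ⟨c⟩ := F.xcParts
  exact F.moishezon F.xaFacts c

/-- `X → Δ` is a family. -/
theorem Flip.isFamily (F : Flip) (hs : IsSpace F.O) : IsFamily F.O F.g := by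
  obtain ⟨c⟩ := F.xcParts
  exact F.isFamily_of F.xaFacts hs c

end Pool.Agent.KO
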