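import Pool.Agent.KO.Xc.Defs
import Pool.Agent.KO.Xc.Root

/-!
# Project KO, block Xc: density on the cone over the projective model (helper40)
-/

set_option autoImplicit false
set_option maxHeartbeats 400000

namespace Pool.Agent.KO

open Set Filter Topology

/-- Density of a set of zeros, by moving the parameter `e` and solving for `w`. -/
theorem root_dense {V : Type} [TopologicalSpace V] (f : V → ℂ) (φ : ℂ × ℂ → V)
    (hφ : Continuous φ) (hf : Continuous fun p => f (φ p))
    (hd : ∀ e, Differentiable ℂ fun w => f (φ (e, w))) (e0 w0 : ℂ) (h0 : f (φ (e0, w0)) = 0)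
    (hne : ∃ w, f (φ (e0, w)) ≠ 0) (Q : V → Prop)
    (hQ : ∀ᶠ e in 𝓝[≠] e0, ∀ w, f (φ (e, w)) = 0 → Q (φ (e, w))) :
    φ (e0, w0) ∈ closure {v | f v = 0 ∧ Q v} := by
  rw [mem_closure_iff_nhds]
  intro U hU
  have h1 : ∀ᶠ p in 𝓝 (e0, w0), φ p ∈ U := hφ.continuousAt hU
  rw [nhds_prod_eq] at h1
  obtain ⟨pa, ha, pb, hb, hab⟩ := Filter.eventually_prod_iff.1 h1
  have h2 := root_cont (fun e w => f (φ (e, w))) hf hd e0 w0 h0 hne (W := {w | pb w}) hb
  have h3 : ∀ᶠ e in 𝓝[≠] e0, pa e ∧ (∃ w ∈ {w | pb w}, f (φ (e, w)) = 0) ∧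
      ∀ w, f (φ (e, w)) = 0 → Q (φ (e, w)) :=
    (ha.filter_mono nhdsWithin_le_nhds).and ((h2.filter_mono nhdsWithin_le_nhds).and hQ)
  obtain ⟨e, he, ⟨w, hw, hw0⟩, hq⟩ := h3.exists
  exact ⟨φ (e, w), hab he hw, hw0, hq w hw0⟩

theorem ne_neg_eventually (a : ℂ) : ∀ᶠ e in 𝓝[≠] (0 : ℂ), a + e ≠ 0 := by
  rcases eq_or_ne a 0 with rfl | ha
  · filter_upwards [self_mem_nhdsWithin] with e he
    simpa using he
  · have h1 : ∀ᶠ e in 𝓝 (0 : ℂ), a + e ≠ 0 := by
      have hc : ContinuousAt (fun e : ℂ => a + e) 0 := by fun_prop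
      exact hc.eventually_ne (by simpa using ha)
    exact h1.filter_mono nhdsWithin_le_nhds

/-- The set of the zeros with `v₀ u ≠ 0`. -/
def HZ (t : ℂ) : Set (Fin 5 → ℂ) := {v | hS v t = 0 ∧ (v 0 ≠ 0 ∧ v 1 ≠ 0)}

theorem dens1 (t : ℂ) (v : Fin 5 → ℂ) (hv : hS v t = 0) (h0 : v 0 ≠ 0) : v ∈ closure (HZ t) := by
  have key := root_dense (fun v => hS v t) (fun p : ℂ × ℂ => (![v 0, v 1 + p.1, v 2, v 3, p.2] : Fin 5 → ℂ))
    (by
      refine continuous_pi fun i => ?_
      fin_cases i <;> simp <;> fun_prop)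
    (by
      simp only [hS, Matrix.cons_val]
      fun_prop)
    (by
      intro e
      simp only [hS, Matrix.cons_val]
      fun_prop)
    0 (v 4) ?_ ?_ (fun v => v 0 ≠ 0 ∧ v 1 ≠ 0) ?_
  · have hv' : (![v 0, v 1 + 0, v 2, v 3, v 4] : Fin 5 → ℂ) = v := by
      funext i
      fin_cases i <;> simp
    simp only [hv'] at key
    exact key
  · have hv' : (![v 0, v 1 + 0, v 2, v 3, v 4] : Fin 5 → ℂ) = v := by
      funext i
      fin_cases i <;> simp
    simp only [hv']
    exact hv
  · by_contra hcon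
    push Not at hcon
    have e0 := hcon 0
    have e1 := hcon 1
    simp only [hS, Matrix.cons_val] at e0 e1
    have : v 0 ^ 11 = 0 := by linear_combination e1 - e0
    exact h0 (pow_eq_zero_iff (by norm_num) |>.1 this)
  · filter_upwards [ne_neg_eventually (v 1)] with e he w _
    exact ⟨h0, he⟩

theorem dens2 (t : ℂ) (v : Fin 5 → ℂ) (hv : hS v t = 0) (h0 : v 0 = 0) (h1 : v 1 ≠ 0) :
    v ∈ closure (HZ t) := by
  have hv' : (![(0 : ℂ), v 1, v 2, v 3, v 4] : Fin 5 → ℂ) = v := by
    funext i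
    fin_cases i <;> simp [h0]
  have key := root_dense (fun v => hS v t) (fun p : ℂ × ℂ => (![p.1, v 1, p.2, v 3, v 4] : Fin 5 → ℂ))
    (by
      refine continuous_pi fun i => ?_
      fin_cases i <;> simp <;> fun_prop)
    (by
      simp only [hS, Matrix.cons_val]
      fun_prop)
    (by
      intro e
      simp only [hS, Matrix.cons_val]
      fun_prop)
    0 (v 2) ?_ ?_ (fun v => v 0 ≠ 0 ∧ v 1 ≠ 0) ?_
  · simp only [hv'] at key
    exact key
  · simp only [hv']
    exact hv
  · refine ⟨1, ?_⟩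
    simp only [hS, Matrix.cons_val]
    simpa using h1
  · filter_upwards [self_mem_nhdsWithin] with e he w _
    exact ⟨he, h1⟩

theorem dens3 (t : ℂ) (v : Fin 5 → ℂ) (h0 : v 0 = 0) (h1 : v 1 = 0) (h2 : v 2 ≠ 0) :
    v ∈ closure (HZ t) := by
  have hv' : (![(0 : ℂ), 0, v 2, v 3, v 4] : Fin 5 → ℂ) = v := by
    funext i
    fin_cases i <;> simp [h0, h1]
  have key := root_dense (fun v => hS v t) (fun p : ℂ × ℂ => (![p.1, p.2, v 2, v 3, v 4] : Fin 5 → ℂ))
    (by
      refine continuous_pi fun i => ?_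
      fin_cases i <;> simp <;> fun_prop)
    (by
      simp only [hS, Matrix.cons_val]
      fun_prop)
    (by
      intro e
      simp only [hS, Matrix.cons_val]
      fun_prop)
    0 0 ?_ ?_ (fun v => v 0 ≠ 0 ∧ v 1 ≠ 0) ?_
  · simp only [hv'] at key
    exact key
  · simp [hS]
  · refine ⟨1, ?_⟩
    simp only [hS, Matrix.cons_val]
    simpa using h2
  · have hC : ∀ᶠ e in 𝓝[≠] (0 : ℂ), e ^ 11 * v 4 ^ 2 + e ^ 10 * v 3 ^ 3 + t * e ^ 2 * v 2 ^ 11
        - e ^ 13 - e ^ 4 * v 2 ^ 9 ≠ 0 := by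
      have han : AnalyticOnNhd ℂ (fun e : ℂ => e ^ 11 * v 4 ^ 2 + e ^ 10 * v 3 ^ 3
          + t * e ^ 2 * v 2 ^ 11 - e ^ 13 - e ^ 4 * v 2 ^ 9) univ := by
        intro e _
        have hd : Differentiable ℂ (fun e : ℂ => e ^ 11 * v 4 ^ 2 + e ^ 10 * v 3 ^ 3
          + t * e ^ 2 * v 2 ^ 11 - e ^ 13 - e ^ 4 * v 2 ^ 9) := by fun_prop
        exact hd.analyticAt e
      rcases (han 0 (mem_univ _)).eventually_eq_zero_or_eventually_ne_zero with h | h
      · exfalso
        have hz := han.eqOn_zero_of_preconnected_of_eventuallyEq_zero isPreconnected_univ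
          (mem_univ 0) h
        -- a polynomial of degree 13 with leading coefficient -1 is not zero
        let p : Polynomial ℂ := Polynomial.X ^ 11 * Polynomial.C (v 4 ^ 2)
          + Polynomial.X ^ 10 * Polynomial.C (v 3 ^ 3)
          + Polynomial.C (t * v 2 ^ 11) * Polynomial.X ^ 2
          - Polynomial.X ^ 13 - Polynomial.X ^ 4 * Polynomial.C (v 2 ^ 9)
        have hp : p = 0 := by
          apply Polynomial.funext
          intro r
          have := hz (mem_univ r)
          simp only [Pi.zero_apply] at this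
          simp only [p, Polynomial.eval_add, Polynomial.eval_sub, Polynomial.eval_mul,
            Polynomial.eval_pow, Polynomial.eval_X, Polynomial.eval_C, Polynomial.eval_zero]
          linear_combination this
        have hc : p.coeff 13 = -1 := by
          simp only [p, Polynomial.coeff_add, Polynomial.coeff_sub, Polynomial.coeff_mul_C,
            Polynomial.coeff_C_mul, Polynomial.coeff_X_pow]
          norm_num
        rw [hp] at hc
        simp at hc
      · exact h
    filter_upwards [self_mem_nhdsWithin, hC] with e he hCe w hw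
    refine ⟨he, ?_⟩
    intro hw0
    simp only [hS, Matrix.cons_val] at hw hw0
    apply hCe
    rw [hw0] at hw
    linear_combination hw

theorem dens4 (t : ℂ) (v : Fin 5 → ℂ) (h0 : v 0 = 0) (h1 : v 1 = 0) : v ∈ closure (HZ t) := by
  rcases eq_or_ne (v 2) 0 with h2 | h2
  · rw [← isClosed_closure.closure_eq (s := closure (HZ t))]
    have hv' : (![(0 : ℂ), 0, 0, v 3, v 4] : Fin 5 → ℂ) = v := by
      funext i
      fin_cases i <;> simp [h0, h1, h2]
    have hc : Continuous fun e : ℂ => (![(0 : ℂ), 0, e, v 3, v 4] : Fin 5 → ℂ) := by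
      refine continuous_pi fun i => ?_
      fin_cases i <;> simp <;> fun_prop
    have hm : Tendsto (fun e : ℂ => (![(0 : ℂ), 0, e, v 3, v 4] : Fin 5 → ℂ)) (𝓝[≠] 0) (𝓝 v) := by
      have := (hc.tendsto 0)
      rw [hv'] at this
      exact this.mono_left nhdsWithin_le_nhds
    refine mem_closure_of_tendsto hm ?_
    filter_upwards [self_mem_nhdsWithin] with e he
    exact dens3 t _ rfl rfl he
  · exact dens3 t v h0 h1 h2

/-- Density on the cone over the model. -/
theorem dens_v (t : ℂ) (v : Fin 5 → ℂ) (hv : hS v t = 0) : v ∈ closure (HZ t) := by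
  rcases eq_or_ne (v 0) 0 with h0 | h0
  · rcases eq_or_ne (v 1) 0 with h1 | h1
    · exact dens4 t v h0 h1
    · exact dens2 t v hv h0 h1
  · exact dens1 t v hv h0

end Pool.Agent.KO
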